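import Mathlib

/-!
# Recurrent sequences with characteristic roots in `Kˣ`
-/

open Polynomial

namespace Pool.Agent.Lib.MP_666dc0_nt.DS

/-- The shift operator on sequences. -/
def sh (K1 : Type) [Field K1] : Module.End K1 (ℕ → K1) where
  toFun f := fun a => f (a + 1)
  map_add' _ _ := rfl
  map_smul' _ _ := rfl

/-- The monic polynomial over `K1` with the given list of roots in `Kˣ`. -/
noncomputable def rp {K : Type} (K1 : Type) [Field K] [Field K1] [Algebra K K1] (A : List Kˣ) :
    K1[X] := (A.map fun α : Kˣ => X - C (algebraMap K K1 (α : K))).prod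

/-- The sequence `f` satisfies the recurrence with characteristic roots `A`. -/
def Kills {K K1 : Type} [Field K] [Field K1] [Algebra K K1] (A : List Kˣ) (f : ℕ → K1) : Prop :=
  aeval (sh K1) (rp K1 A) f = 0

/-- The algebra generated by the sequences with values in `K1` satisfying a recurrence with
characteristic roots in `Kˣ`. -/
def CE (K K1 : Type) [Field K] [Field K1] [Algebra K K1] : Subalgebra K1 (ℕ → K1) :=
  Algebra.adjoin K1 {f | ∃ A : List Kˣ, Kills A f}

variable {K K1 : Type} [Field K] [Field K1] [Algebra K K1]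

theorem sh_apply (f : ℕ → K1) (a : ℕ) : sh K1 f a = f (a + 1) := rfl

theorem rp_nil : rp (K := K) K1 [] = 1 := by simp [rp]

theorem rp_cons (α : Kˣ) (A : List Kˣ) :
    rp K1 (α :: A) = (X - C (algebraMap K K1 (α : K))) * rp K1 A := by simp [rp]

theorem rp_append (A B : List Kˣ) : rp K1 (A ++ B) = rp K1 A * rp K1 B := by simp [rp]

theorem kills_nil {f : ℕ → K1} : Kills (K := K) [] f ↔ f = 0 := by
  rw [Kills, rp_nil, map_one, Module.End.one_apply]

/-- `(E - α) f` as a sequence. -/
theorem aeval_sh_sub (α : K1) (f : ℕ → K1) :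
    aeval (sh K1) (X - C α) f = fun a => f (a + 1) - α * f a := by
  rw [map_sub, aeval_X, aeval_C, LinearMap.sub_apply, Module.algebraMap_end_apply]
  rfl

theorem kills_cons {α : Kˣ} {A : List Kˣ} {f : ℕ → K1} :
    Kills (α :: A) f ↔ Kills A (aeval (sh K1) (X - C (algebraMap K K1 (α : K))) f) := by
  rw [Kills, Kills, rp_cons, mul_comm, map_mul, Module.End.mul_apply]

theorem kills_append_left {A B : List Kˣ} {f : ℕ → K1} (h : Kills A f) : Kills (A ++ B) f := by
  rw [Kills, rp_append, mul_comm, map_mul, Module.End.mul_apply, h, map_zero]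

theorem kills_append_right {A B : List Kˣ} {f : ℕ → K1} (h : Kills B f) : Kills (A ++ B) f := by
  rw [Kills, rp_append, map_mul, Module.End.mul_apply, h, map_zero]

theorem kills_aeval {A : List Kˣ} {f : ℕ → K1} (h : Kills A f) (Q : K1[X]) :
    Kills A (aeval (sh K1) Q f) := by
  rw [Kills, ← Module.End.mul_apply, ← map_mul, mul_comm, map_mul, Module.End.mul_apply, h,
    map_zero]

theorem kills_add {A : List Kˣ} {f g : ℕ → K1} (hf : Kills A f) (hg : Kills A g) :
    Kills A (f + g) := by
  rw [Kills, map_add, hf, hg, add_zero]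

theorem kills_smul {A : List Kˣ} {f : ℕ → K1} (hf : Kills A f) (c : K1) : Kills A (c • f) := by
  rw [Kills, map_smul, hf, smul_zero]

/-- Products of recurrent sequences. -/
theorem exists_kills_mul (A B : List Kˣ) : ∃ D : List Kˣ, ∀ f g : ℕ → K1, Kills A f → Kills B g →
    Kills D (f * g) := by
  obtain ⟨N, hN⟩ : ∃ N, N = A.length + B.length := ⟨_, rfl⟩
  induction N generalizing A B with
  | zero =>
    refine ⟨[], fun f g hf hg => ?_⟩
    have h1 : A = [] := List.eq_nil_of_length_eq_zero (by omega)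
    rw [h1, kills_nil] at hf
    rw [kills_nil, hf, zero_mul]
  | succ N ih =>
    rcases A with _ | ⟨α, A⟩
    · refine ⟨[], fun f g hf hg => ?_⟩
      rw [kills_nil] at hf
      rw [kills_nil, hf, zero_mul]
    rcases B with _ | ⟨β, B⟩
    · refine ⟨[], fun f g hf hg => ?_⟩
      rw [kills_nil] at hg
      rw [kills_nil, hg, mul_zero]
    obtain ⟨D1, hD1⟩ := ih A (β :: B) (by simp only [List.length_cons] at hN ⊢; omega)
    obtain ⟨D2, hD2⟩ := ih (α :: A) B (by simp only [List.length_cons] at hN ⊢; omega)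
    refine ⟨(α * β) :: (D1 ++ D2), fun f g hf hg => ?_⟩
    rw [kills_cons]
    have h1 : aeval (sh K1) (X - C (algebraMap K K1 ((α * β : Kˣ) : K))) (f * g) =
        aeval (sh K1) (X - C (algebraMap K K1 (α : K))) f * aeval (sh K1) (X : K1[X]) g +
          (algebraMap K K1 (α : K)) • (f * aeval (sh K1) (X - C (algebraMap K K1 (β : K))) g) := by
      funext a
      rw [aeval_sh_sub, aeval_sh_sub, aeval_sh_sub, aeval_X, Units.val_mul, map_mul]
      simp only [Pi.mul_apply, Pi.add_apply, Pi.smul_apply, smul_eq_mul, sh_apply]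
      ring
    rw [h1]
    refine kills_add (kills_append_left (hD1 _ _ (kills_cons.1 hf) (kills_aeval hg _)))
      (kills_append_right (kills_smul (hD2 _ _ hf (kills_cons.1 hg)) _))

theorem mem_CE {f : ℕ → K1} : f ∈ CE K K1 ↔ ∃ A : List Kˣ, Kills A f := by
  constructor
  · intro hf
    refine Algebra.adjoin_induction (p := fun f _ => ∃ A : List Kˣ, Kills A f) ?_ ?_ ?_ ?_ hf
    · exact fun f hf => hf
    · intro c
      refine ⟨[1], ?_⟩
      rw [kills_cons, kills_nil, aeval_sh_sub]
      funext a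
      simp
    · rintro f g _ _ ⟨A, hA⟩ ⟨B, hB⟩
      exact ⟨A ++ B, kills_add (kills_append_left hA) (kills_append_right hB)⟩
    · rintro f g _ _ ⟨A, hA⟩ ⟨B, hB⟩
      obtain ⟨D, hD⟩ := exists_kills_mul (K1 := K1) A B
      exact ⟨D, hD f g hA hB⟩
  · exact fun hf => Algebra.subset_adjoin hf

/-- `T ^ (l a) f(a)`. -/
private theorem A1_twist (T : K1) (hT0 : T ≠ 0) (l : ℤ) (A : List Kˣ) (f : ℕ → K1)
    (hf : Kills A f) :
    aeval (sh K1) ((A.map fun α : Kˣ => X - C (algebraMap K K1 (α : K) * T ^ l)).prod)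
      (fun a => T ^ (l * (a : ℤ)) * f a) = 0 := by
  induction A generalizing f with
  | nil =>
    rw [kills_nil] at hf
    rw [hf]
    have h1 : (fun a : ℕ => T ^ (l * (a : ℤ)) * (0 : ℕ → K1) a) = 0 := by
      funext a
      simp
    rw [h1, map_zero]
  | cons α A ih =>
    rw [List.map_cons, List.prod_cons, mul_comm, map_mul, Module.End.mul_apply]
    have h1 : aeval (sh K1) (X - C (algebraMap K K1 (α : K) * T ^ l))
        (fun a => T ^ (l * (a : ℤ)) * f a) =
        T ^ l • fun a : ℕ => T ^ (l * (a : ℤ)) *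
          aeval (sh K1) (X - C (algebraMap K K1 (α : K))) f a := by
      rw [aeval_sh_sub, aeval_sh_sub]
      funext a
      simp only [Pi.smul_apply, smul_eq_mul]
      have h2 : T ^ (l * ((a + 1 : ℕ) : ℤ)) = T ^ l * T ^ (l * (a : ℤ)) := by
        rw [← zpow_add₀ hT0]
        congr 1
        push_cast
        ring
      rw [h2]
      ring
    rw [h1, map_smul, ih _ (kills_cons.1 hf), smul_zero]

/-- Independence of types, one variable. -/
theorem indep_one (T : K1) (hT0 : T ≠ 0)
    (hT : ∀ (α β : K) (i j : ℤ), α ≠ 0 → β ≠ 0 →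
      algebraMap K K1 α * T ^ i = algebraMap K K1 β * T ^ j → i = j)
    (J : Finset ℤ) (F : ℤ → ℕ → K1) (hF : ∀ l ∈ J, F l ∈ CE K K1)
    (h : ∀ a : ℕ, ∑ l ∈ J, T ^ (l * (a : ℤ)) * F l a = 0) : ∀ l ∈ J, ∀ a, F l a = 0 := by
  classical
  have hF' : ∀ l, ∃ A : List Kˣ, l ∈ J → Kills A (F l) := by
    intro l
    by_cases hl : l ∈ J
    · obtain ⟨A, hA⟩ := mem_CE.1 (hF l hl)
      exact ⟨A, fun _ => hA⟩
    · exact ⟨[], fun h => absurd h hl⟩
  choose A hA using hF'
  obtain ⟨G, hG⟩ : ∃ G : ℤ → ℕ → K1, ∀ l a, G l a = T ^ (l * (a : ℤ)) * F l a :=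
    ⟨fun l a => T ^ (l * (a : ℤ)) * F l a, fun _ _ => rfl⟩
  obtain ⟨Q, hQ⟩ : ∃ Q : ℤ → K1[X], ∀ l,
      Q l = ((A l).map fun α : Kˣ => X - C (algebraMap K K1 (α : K) * T ^ l)).prod := ⟨_, fun _ => rfl⟩
  have hkill : ∀ l ∈ J, aeval (sh K1) (Q l) (G l) = 0 := by
    intro l hl
    have h1 : G l = fun a : ℕ => T ^ (l * (a : ℤ)) * F l a := funext fun a => hG l a
    rw [h1, hQ]
    exact A1_twist T hT0 l (A l) (F l) (hA l hl)
  have hcop : ∀ l l', l ≠ l' → IsCoprime (Q l) (Q l') := by
    intro l l' hll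
    have h1 : ∀ B B' : List Kˣ,
        IsCoprime ((B.map fun α : Kˣ => X - C (algebraMap K K1 (α : K) * T ^ l)).prod)
          ((B'.map fun α : Kˣ => X - C (algebraMap K K1 (α : K) * T ^ l')).prod) := by
      intro B B'
      induction B with
      | nil => rw [List.map_nil, List.prod_nil]; exact isCoprime_one_left
      | cons α B ih =>
        rw [List.map_cons, List.prod_cons]
        refine IsCoprime.mul_left ?_ ih
        clear ih
        induction B' with
        | nil => rw [List.map_nil, List.prod_nil]; exact isCoprime_one_right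
        | cons β B' ih' =>
          rw [List.map_cons, List.prod_cons]
          refine IsCoprime.mul_right ?_ ih'
          refine isCoprime_X_sub_C_of_isUnit_sub (sub_ne_zero.2 ?_).isUnit
          exact fun h => hll (hT _ _ l l' α.ne_zero β.ne_zero h)
    rw [hQ, hQ]
    exact h1 _ _
  intro l₀ hl₀
  have hR : IsCoprime (Q l₀) (∏ l ∈ J.erase l₀, Q l) :=
    IsCoprime.prod_right fun l hl => hcop l₀ l (Finset.ne_of_mem_erase hl).symm
  have hsum : ∑ l ∈ J, G l = 0 := by
    funext a
    rw [Finset.sum_apply, Pi.zero_apply, ← h a]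
    exact Finset.sum_congr rfl fun l _ => hG l a
  have h1 : aeval (sh K1) (∏ l ∈ J.erase l₀, Q l) (G l₀) = 0 := by
    have h2 : G l₀ = - ∑ l ∈ J.erase l₀, G l := by
      rw [← Finset.add_sum_erase J G hl₀] at hsum
      exact eq_neg_of_add_eq_zero_left hsum
    rw [h2, map_neg, map_sum, neg_eq_zero]
    refine Finset.sum_eq_zero fun l hl => ?_
    rw [← Finset.prod_erase_mul _ _ hl, map_mul, Module.End.mul_apply,
      hkill l (Finset.mem_of_mem_erase hl), map_zero]
  obtain ⟨u, v, huv⟩ := hR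
  have h3 : G l₀ = 0 := by
    have h4 := congrArg (fun P => aeval (sh K1) P (G l₀)) huv
    simp only [map_add, map_mul, map_one, LinearMap.add_apply, Module.End.mul_apply,
      Module.End.one_apply, hkill l₀ hl₀, h1, map_zero, add_zero] at h4
    exact h4.symm
  intro a
  have h4 := congrFun h3 a
  rw [hG, Pi.zero_apply, mul_eq_zero] at h4
  exact h4.resolve_left (zpow_ne_zero _ hT0)

end Pool.Agent.Lib.MP_666dc0_nt.DS
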