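import Pool.Agent.Lib.MP_666dc0_nt.DS.A1
import Pool.Agent.Lib.MP_666dc0_nt.LD.ECDefs
import Pool.Agent.Lib.MP_666dc0_nt.LD.EC1

/-!
# Powers of matrices killed by a polynomial over `K`, and independence in two variables
-/

open Polynomial

namespace Pool.Agent.Lib.MP_666dc0_nt.DS

variable {K K1 : Type} [Field K] [Field K1] [Algebra K K1] {n : ℕ}

theorem aeval_sh_pow (X' : Matrix (Fin n) (Fin n) K1) (φ : Matrix (Fin n) (Fin n) K1 →ₗ[K1] K1)
    (Q : K1[X]) : aeval (sh K1) Q (fun a => φ (X' ^ a)) = fun a => φ (X' ^ a * aeval X' Q) := by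
  induction Q using Polynomial.induction_on' with
  | add p q hp hq =>
    rw [map_add, LinearMap.add_apply, hp, hq]
    funext a
    rw [Pi.add_apply, map_add, mul_add, map_add]
  | monomial k c =>
    have h1 : ∀ k : ℕ, (sh K1 ^ k) (fun a => φ (X' ^ a)) = fun a => φ (X' ^ a * X' ^ k) := by
      intro k
      induction k with
      | zero => simp
      | succ k ih =>
        rw [pow_succ', Module.End.mul_apply, ih]
        funext a
        rw [sh_apply, pow_succ, mul_assoc, ← pow_succ']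
    rw [aeval_monomial, aeval_monomial, Module.End.mul_apply, h1,
      Module.algebraMap_end_apply]
    funext a
    rw [Pi.smul_apply, ← Algebra.smul_def, mul_smul_comm, map_smul]

/-- A polynomial over the algebraically closed field `K` with non-zero constant coefficient is a
constant times a product of linear factors with roots in `Kˣ`. -/
theorem exists_list [IsAlgClosed K] (P : K[X]) (hP : P.coeff 0 ≠ 0) :
    ∃ (A : List Kˣ) (c : K), c ≠ 0 ∧ P.map (algebraMap K K1) = C (algebraMap K K1 c) * rp K1 A := by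
  have hP0 : P ≠ 0 := fun h => hP (by rw [h, coeff_zero])
  have h1 := (IsAlgClosed.splits P).eq_prod_roots
  have h0 : ∀ α ∈ P.roots, α ≠ 0 := by
    intro α hα h
    rw [h, mem_roots hP0, IsRoot.def, ← coeff_zero_eq_eval_zero] at hα
    exact hP hα
  obtain ⟨B, hB⟩ : ∃ B : List Kˣ, (B : Multiset Kˣ).map (fun α : Kˣ => (α : K)) = P.roots := by
    obtain ⟨m, hm⟩ : ∃ m : Multiset Kˣ, m.map (fun α : Kˣ => (α : K)) = P.roots := by
      refine ⟨P.roots.attach.map fun α => Units.mk0 α.1 (h0 α.1 α.2), ?_⟩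
      rw [Multiset.map_map]
      exact Multiset.attach_map_val _
    obtain ⟨B, rfl⟩ := Quot.exists_rep m
    exact ⟨B, hm⟩
  refine ⟨B, P.leadingCoeff, leadingCoeff_ne_zero.2 hP0, ?_⟩
  conv_lhs => rw [h1]
  rw [Polynomial.map_mul, map_C, ← hB, Multiset.map_map, Multiset.map_coe, Multiset.prod_coe, rp]
  congr 1
  rw [← Polynomial.coe_mapRingHom, map_list_prod, List.map_map]
  congr 1
  refine List.map_congr_left fun α _ => ?_
  simp

/-- The sequences `φ(X ^ a)` for a matrix `X` killed by a polynomial over `K` with non-zero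
constant coefficient. -/
theorem pow_mem_CE [IsAlgClosed K] (X' : Matrix (Fin n) (Fin n) K1) (P : K[X])
    (hP : P.coeff 0 ≠ 0) (hX : aeval X' (P.map (algebraMap K K1)) = 0)
    (φ : Matrix (Fin n) (Fin n) K1 →ₗ[K1] K1) : (fun a => φ (X' ^ a)) ∈ CE K K1 := by
  obtain ⟨A, c, hc, hA⟩ := exists_list (K1 := K1) P hP
  refine mem_CE.2 ⟨A, ?_⟩
  have h1 : aeval X' (rp K1 A) = 0 := by
    rw [hA, map_mul, aeval_C] at hX
    have h2 : algebraMap K K1 c ≠ 0 := fun h => hc (by rwa [map_eq_zero] at h)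
    rw [← Algebra.smul_def] at hX
    exact (smul_eq_zero.1 hX).resolve_left h2
  rw [Kills, aeval_sh_pow]
  funext a
  rw [h1, mul_zero, map_zero, Pi.zero_apply]

/-- Functions of two variables that are recurrent in each variable. -/
def CE2 (K K1 : Type) [Field K] [Field K1] [Algebra K K1] : Subalgebra K1 (ℕ × ℕ → K1) where
  carrier := {f | (∀ b, (fun a => f (a, b)) ∈ CE K K1) ∧ ∀ a, (fun b => f (a, b)) ∈ CE K K1}
  mul_mem' hf hg := ⟨fun b => Subalgebra.mul_mem _ (hf.1 b) (hg.1 b),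
    fun a => Subalgebra.mul_mem _ (hf.2 a) (hg.2 a)⟩
  add_mem' hf hg := ⟨fun b => Subalgebra.add_mem _ (hf.1 b) (hg.1 b),
    fun a => Subalgebra.add_mem _ (hf.2 a) (hg.2 a)⟩
  algebraMap_mem' c := ⟨fun _ => Subalgebra.algebraMap_mem (CE K K1) c,
    fun _ => Subalgebra.algebraMap_mem (CE K K1) c⟩

theorem mem_CE2 {f : ℕ × ℕ → K1} : f ∈ CE2 K K1 ↔
    (∀ b, (fun a => f (a, b)) ∈ CE K K1) ∧ ∀ a, (fun b => f (a, b)) ∈ CE K K1 := Iff.rfl

theorem fst_mem_CE2 {f : ℕ → K1} (hf : f ∈ CE K K1) : (fun x : ℕ × ℕ => f x.1) ∈ CE2 K K1 :=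
  ⟨fun _ => hf, fun a => Subalgebra.algebraMap_mem (CE K K1) (f a)⟩

theorem snd_mem_CE2 {f : ℕ → K1} (hf : f ∈ CE K K1) : (fun x : ℕ × ℕ => f x.2) ∈ CE2 K K1 :=
  ⟨fun b => Subalgebra.algebraMap_mem (CE K K1) (f b), fun _ => hf⟩

/-- Independence of types, two variables. -/
theorem indep_two (T : K1) (hT0 : T ≠ 0)
    (hT : ∀ (α β : K) (i j : ℤ), α ≠ 0 → β ≠ 0 →
      algebraMap K K1 α * T ^ i = algebraMap K K1 β * T ^ j → i = j)
    (J : Finset ℤ) (F : ℤ → ℤ → ℕ × ℕ → K1) (hF : ∀ i ∈ J, ∀ j ∈ J, F i j ∈ CE2 K K1)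
    (h : ∀ a b : ℕ, ∑ i ∈ J, ∑ j ∈ J, T ^ (i * (a : ℤ) + j * (b : ℤ)) * F i j (a, b) = 0) :
    ∀ i ∈ J, ∀ j ∈ J, ∀ a b, F i j (a, b) = 0 := by
  have h1 : ∀ b : ℕ, ∀ i ∈ J, ∀ a : ℕ, ∑ j ∈ J, T ^ (j * (b : ℤ)) * F i j (a, b) = 0 := by
    intro b
    refine indep_one (K := K) T hT0 hT J (fun i a => ∑ j ∈ J, T ^ (j * (b : ℤ)) * F i j (a, b)) ?_ ?_
    · intro i hi
      have h2 : (fun a : ℕ => ∑ j ∈ J, T ^ (j * (b : ℤ)) * F i j (a, b)) =
          ∑ j ∈ J, T ^ (j * (b : ℤ)) • fun a => F i j (a, b) := by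
        funext a
        rw [Finset.sum_apply]
        rfl
      rw [h2]
      exact Subalgebra.sum_mem _ fun j hj => Subalgebra.smul_mem _ ((hF i hi j hj).1 b) _
    · intro a
      rw [← h a b]
      refine Finset.sum_congr rfl fun i _ => ?_
      rw [Finset.mul_sum]
      refine Finset.sum_congr rfl fun j _ => ?_
      rw [zpow_add₀ hT0, mul_assoc]
  intro i hi j hj a b
  exact indep_one (K := K) T hT0 hT J (fun j b => F i j (a, b))
    (fun j hj => (hF i hi j hj).2 a) (fun b => h1 b i hi a) j hj b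

end Pool.Agent.Lib.MP_666dc0_nt.DS
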