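import Pool.Agent.Lib.MP_666dc0_nt.DS.A2

/-!
# Traces
-/

open Polynomial

namespace Pool.Agent.Lib.MP_666dc0_nt.DS

variable {K K1 : Type} [Field K] [Field K1] [Algebra K K1] {n : ℕ}

/-- A matrix killed by a polynomial over `K` with non-zero constant coefficient is invertible. -/
theorem exists_inverse_poly (X' : Matrix (Fin n) (Fin n) K1) (P : K[X]) (hP : P.coeff 0 ≠ 0)
    (hX : aeval X' (P.map (algebraMap K K1)) = 0) (A : ℕ) :
    ∃ Q : K[X], aeval X' (Q.map (algebraMap K K1)) * X' ^ A = 1 := by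
  set c := P.coeff 0 with hcdef
  have hdec : P.divX * Polynomial.X + Polynomial.C c = P := Polynomial.divX_mul_X_add P
  have h1 : aeval X' (P.divX.map (algebraMap K K1)) * X'
      = -(algebraMap K1 (Matrix (Fin n) (Fin n) K1) (algebraMap K K1 c)) := by
    have h2 := hX
    rw [← hdec, Polynomial.map_add, Polynomial.map_mul, Polynomial.map_X, Polynomial.map_C,
      map_add, map_mul, Polynomial.aeval_X, Polynomial.aeval_C] at h2
    exact eq_neg_of_add_eq_zero_left h2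
  have h3 : aeval X' ((Polynomial.C (-c⁻¹) * P.divX).map (algebraMap K K1)) * X' = 1 := by
    rw [Polynomial.map_mul, Polynomial.map_C, map_mul, Polynomial.aeval_C, mul_assoc, h1, mul_neg,
      ← map_mul, ← map_mul, neg_mul, inv_mul_cancel₀ hP, map_neg, map_one, map_neg, map_one, neg_neg]
  refine ⟨(Polynomial.C (-c⁻¹) * P.divX) ^ A, ?_⟩
  have hcomm : Commute (aeval X' ((Polynomial.C (-c⁻¹) * P.divX).map (algebraMap K K1))) X' := by
    have h5 := Commute.map
      (Commute.all ((Polynomial.C (-c⁻¹) * P.divX).map (algebraMap K K1)) Polynomial.X)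
      (Polynomial.aeval (R := K1) X')
    rwa [Polynomial.aeval_X] at h5
  rw [Polynomial.map_pow, map_pow, ← hcomm.mul_pow, h3, one_pow]

theorem trace_eq_zero_of_eventually (X' N : Matrix (Fin n) (Fin n) K1) (P : K[X])
    (hP : P.coeff 0 ≠ 0) (hX : aeval X' (P.map (algebraMap K K1)) = 0)
    (F : Set ℕ) (hF : F.Finite) (h : ∀ a ∉ F, (X' ^ a * N).trace = 0) : N.trace = 0 := by
  obtain ⟨B, hB⟩ := hF.bddAbove
  obtain ⟨Q, hQ⟩ := exists_inverse_poly X' P hP hX (B + 1)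
  have h1 : N = aeval X' (Q.map (algebraMap K K1)) * X' ^ (B + 1) * N := by
    rw [hQ, one_mul]
  rw [h1, Polynomial.aeval_eq_sum_range, Finset.sum_mul, Finset.sum_mul, Matrix.trace_sum]
  refine Finset.sum_eq_zero fun i _ => ?_
  rw [smul_mul_assoc, smul_mul_assoc, ← pow_add, Matrix.trace_smul, h, smul_zero]
  intro hmem
  have := hB hmem
  omega

/-- The linear functional `M ↦ trace (B * M * D)`. -/
noncomputable def trf (B D : Matrix (Fin n) (Fin n) K1) : Matrix (Fin n) (Fin n) K1 →ₗ[K1] K1 where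
  toFun M := (B * M * D).trace
  map_add' M N := by rw [mul_add, add_mul, Matrix.trace_add]
  map_smul' c M := by
    rw [mul_smul_comm, smul_mul_assoc, Matrix.trace_smul]
    rfl

theorem trf_apply (B D M : Matrix (Fin n) (Fin n) K1) : trf B D M = (B * M * D).trace := rfl

/-- The functions `trace (B X ^ a G X ^ b D)`. -/
theorem trace_mem_CE2 [IsAlgClosed K] (X' Y' : Matrix (Fin n) (Fin n) K1) (P P' : K[X])
    (hP : P.coeff 0 ≠ 0) (hX : aeval X' (P.map (algebraMap K K1)) = 0)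
    (hP' : P'.coeff 0 ≠ 0) (hY : aeval Y' (P'.map (algebraMap K K1)) = 0)
    (B G D : Matrix (Fin n) (Fin n) K1) :
    (fun x : ℕ × ℕ => (B * X' ^ x.1 * G * Y' ^ x.2 * D).trace) ∈ CE2 K K1 := by
  refine mem_CE2.2 ⟨fun b => ?_, fun a => ?_⟩
  · have h1 := pow_mem_CE X' P hP hX (trf B (G * Y' ^ b * D))
    have h2 : (fun a : ℕ => trf B (G * Y' ^ b * D) (X' ^ a)) =
        fun a : ℕ => (B * X' ^ a * G * Y' ^ b * D).trace := by
      funext a
      rw [trf_apply]
      simp only [mul_assoc]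
    rwa [h2] at h1
  · have h1 := pow_mem_CE Y' P' hP' hY (trf (B * X' ^ a * G) D)
    exact h1

/-- The off-diagonal traces vanish. -/
theorem trace_offdiag [IsAlgClosed K] (T : K1) (hT0 : T ≠ 0)
    (hT : ∀ (α β : K) (i j : ℤ), α ≠ 0 → β ≠ 0 →
      algebraMap K K1 α * T ^ i = algebraMap K K1 β * T ^ j → i = j)
    {J : Finset ℤ} {e : ℤ → Matrix (Fin n) (Fin n) K1} (he : LD.Proj J e)
    (X' : Matrix (Fin n) (Fin n) K1) (hXe : ∀ j ∈ J, e j * X' = X' * e j) (P : K[X])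
    (hP : P.coeff 0 ≠ 0) (hX : aeval X' (P.map (algebraMap K K1)) = 0)
    (G H : Matrix (Fin n) (Fin n) K1) (δ : ℕ × ℕ → K1) (η : ℤ → ℕ × ℕ → K1)
    (hδ : δ ∈ CE2 K K1) (hη : ∀ l ∈ J, η l ∈ CE2 K K1) (hδ0 : {a : ℕ | δ (a, 0) = 0}.Finite)
    (h : ∀ a b : ℕ, δ (a, b) * ((X' * LD.dg J e T) ^ a * G * (X' * LD.dg J e T) ^ b * H).trace =
      ∑ l ∈ J, T ^ (l * ((a : ℤ) + b)) * η l (a, b))
    {i j : ℤ} (hi : i ∈ J) (hj : j ∈ J) (hij : i ≠ j) : (e i * G * e j * H).trace = 0 := by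
  classical
  obtain ⟨F, hFdef⟩ : ∃ F : ℤ → ℤ → ℕ × ℕ → K1, ∀ i j x, F i j x =
      δ x * (e i * X' ^ x.1 * (G * e j) * X' ^ x.2 * H).trace - (if i = j then η i x else 0) :=
    ⟨fun i j x => δ x * (e i * X' ^ x.1 * (G * e j) * X' ^ x.2 * H).trace -
      (if i = j then η i x else 0), fun _ _ _ => rfl⟩
  have hF : ∀ i ∈ J, ∀ j ∈ J, F i j ∈ CE2 K K1 := by
    intro i hi j hj
    have h1 : F i j = δ * (fun x : ℕ × ℕ => (e i * X' ^ x.1 * (G * e j) * X' ^ x.2 * H).trace) -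
        (if i = j then η i else 0) := by
      funext x
      rw [hFdef, Pi.sub_apply, Pi.mul_apply]
      congr 1
      split_ifs <;> rfl
    rw [h1]
    refine Subalgebra.sub_mem _ (Subalgebra.mul_mem _ hδ
      (trace_mem_CE2 X' X' P P hP hX hP hX (e i) (G * e j) H)) ?_
    split_ifs
    · exact hη i hi
    · exact Subalgebra.zero_mem _
  have hsum : ∀ a b : ℕ, ∑ i ∈ J, ∑ j ∈ J, T ^ (i * (a : ℤ) + j * (b : ℤ)) * F i j (a, b) = 0 := by
    intro a b
    have h1 : δ (a, b) * ((X' * LD.dg J e T) ^ a * G * (X' * LD.dg J e T) ^ b * H).trace =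
        ∑ i ∈ J, ∑ j ∈ J, T ^ (i * (a : ℤ) + j * (b : ℤ)) *
          (δ (a, b) * (e i * X' ^ a * (G * e j) * X' ^ b * H).trace) := by
      rw [he.pow X' hXe T hT0 a, he.pow X' hXe T hT0 b]
      simp only [Finset.sum_mul, Finset.mul_sum, Matrix.trace_sum]
      rw [Finset.sum_comm]
      refine Finset.sum_congr rfl fun i _ => ?_
      refine Finset.sum_congr rfl fun j _ => ?_
      simp only [Matrix.smul_mul, Matrix.mul_smul, Matrix.trace_smul, smul_eq_mul]
      rw [zpow_add₀ hT0]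
      simp only [mul_assoc]
      ring
    have h2 : ∑ i ∈ J, ∑ j ∈ J, T ^ (i * (a : ℤ) + j * (b : ℤ)) *
        (if i = j then η i (a, b) else 0) = ∑ l ∈ J, T ^ (l * ((a : ℤ) + b)) * η l (a, b) := by
      refine Finset.sum_congr rfl fun i hi => ?_
      simp only [mul_ite, mul_zero]
      rw [Finset.sum_ite_eq, if_pos hi]
      congr 2
      ring
    simp only [hFdef, mul_sub, Finset.sum_sub_distrib]
    rw [h2, ← h a b, h1, sub_self]
  have hzero := indep_two (K := K) T hT0 hT J F hF hsum i hi j hj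
  refine trace_eq_zero_of_eventually X' (e i * G * e j * H) P hP hX {a : ℕ | δ (a, 0) = 0} hδ0
    (fun a ha => ?_)
  have h3 := hzero a 0
  rw [hFdef, if_neg hij, sub_zero, pow_zero, mul_one] at h3
  have h4 : (e i * X' ^ a * (G * e j) * H).trace = 0 := by
    rcases mul_eq_zero.mp h3 with h5 | h5
    · exact absurd h5 ha
    · exact h5
  have h5 : e i * X' ^ a = X' ^ a * e i :=
    (Commute.pow_right (hXe i hi : Commute (e i) X') a)
  rw [← h4, h5]
  simp only [Matrix.mul_assoc]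

/-- The diagonal parts. -/
theorem trace_diag [IsAlgClosed K] (T : K1) (hT0 : T ≠ 0)
    (hT : ∀ (α β : K) (i j : ℤ), α ≠ 0 → β ≠ 0 →
      algebraMap K K1 α * T ^ i = algebraMap K K1 β * T ^ j → i = j)
    {J : Finset ℤ} {e : ℤ → Matrix (Fin n) (Fin n) K1} (he : LD.Proj J e)
    (X' : Matrix (Fin n) (Fin n) K1) (hXe : ∀ j ∈ J, e j * X' = X' * e j) (P : K[X])
    (hP : P.coeff 0 ≠ 0) (hX : aeval X' (P.map (algebraMap K K1)) = 0)
    (G : Matrix (Fin n) (Fin n) K1) (δ : ℕ → K1) (η : ℤ → ℕ → K1)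
    (hδ : δ ∈ CE K K1) (hη : ∀ l ∈ J, η l ∈ CE K K1)
    (h : ∀ a : ℕ, δ a * ((X' * LD.dg J e T) ^ a * G).trace = ∑ l ∈ J, T ^ (l * (a : ℤ)) * η l a)
    {j : ℤ} (hj : j ∈ J) (a : ℕ) : δ a * (e j * X' ^ a * G).trace = η j a := by
  have htr : ∀ l, (fun x : ℕ => (e l * X' ^ x * G).trace) ∈ CE K K1 := fun l =>
    pow_mem_CE X' P hP hX (trf (e l) G)
  have hF : ∀ l ∈ J, (fun (l : ℤ) (a : ℕ) => δ a * (e l * X' ^ a * G).trace - η l a) l ∈
      CE K K1 := by
    intro l hl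
    exact Subalgebra.sub_mem _ (Subalgebra.mul_mem _ hδ (htr l)) (hη l hl)
  have hsum : ∀ a : ℕ, ∑ l ∈ J, T ^ (l * (a : ℤ)) *
      (fun (l : ℤ) (a : ℕ) => δ a * (e l * X' ^ a * G).trace - η l a) l a = 0 := by
    intro a
    have h2 := h a
    rw [he.pow X' hXe T hT0 a, Finset.sum_mul, Matrix.trace_sum, Finset.mul_sum] at h2
    have h3 : ∀ l ∈ J, T ^ (l * (a : ℤ)) *
        (fun (l : ℤ) (a : ℕ) => δ a * (e l * X' ^ a * G).trace - η l a) l a =
        δ a * (T ^ (l * (a : ℤ)) • (e l * X' ^ a) * G).trace - T ^ (l * (a : ℤ)) * η l a := by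
      intro l _
      rw [Matrix.smul_mul, Matrix.trace_smul, smul_eq_mul]
      ring
    rw [Finset.sum_congr rfl h3, Finset.sum_sub_distrib, h2, sub_self]
  exact sub_eq_zero.1 (indep_one T hT0 hT J _ hF hsum j hj a)

end Pool.Agent.Lib.MP_666dc0_nt.DS
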