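import Pool.Agent.Lib.MP_666dc0_nt.DS.A3

/-!
# The trace function
-/

open Polynomial Topology

namespace Pool.Agent.Lib.MP_666dc0_nt.DS

variable {K L : Type} [Field K] [Field L] [Algebra K L] {n : ℕ} {Γ : Type} [Group Γ]

theorem exists_coeffs (M : Matrix (Fin n) (Fin n) L) (P : K[X])
    (hP : P.coeff 0 ≠ 0) (hX : aeval M (P.map (algebraMap K L)) = 0) (N : ℕ) :
    ∃ (d : ℕ) (Q : ℕ → K), ∀ G : Matrix (Fin n) (Fin n) L, G.trace =
      ∑ i ∈ Finset.range d, algebraMap K L (Q i) * (M ^ (N + i) * G).trace := by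
  obtain ⟨Q, hQ⟩ := exists_inverse_poly M P hP hX N
  refine ⟨(Q.map (algebraMap K L)).natDegree + 1, Q.coeff, fun G => ?_⟩
  have h1 : G = aeval M (Q.map (algebraMap K L)) * M ^ N * G := by rw [hQ, one_mul]
  conv_lhs => rw [h1]
  rw [aeval_eq_sum_range, Finset.sum_mul, Finset.sum_mul, Matrix.trace_sum]
  refine Finset.sum_congr rfl fun i _ => ?_
  rw [coeff_map, smul_mul_assoc, smul_mul_assoc, Matrix.trace_smul, smul_eq_mul, ← pow_add,
    add_comm i N]

/-- The trace function `θ`. -/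
theorem exists_theta [TopologicalSpace Γ] [IsTopologicalGroup Γ] [TopologicalSpace K]
    [IsTopologicalDivisionRing K] [T1Space K] (σ : Γ) (M : Matrix (Fin n) (Fin n) L) (P : K[X])
    (hP : P.coeff 0 ≠ 0) (hX : aeval M (P.map (algebraMap K L)) = 0)
    (G : Γ → Matrix (Fin n) (Fin n) L) (D E : Γ → K) (hD : Continuous D) (hE : Continuous E)
    (hD0 : ∀ γ, {a : ℕ | D (σ ^ a * γ) = 0}.Finite)
    (h : ∀ γ (a : ℕ), algebraMap K L (D (σ ^ a * γ)) * (M ^ a * G γ).trace =
      algebraMap K L (E (σ ^ a * γ))) :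
    ∃ θ : Γ → K, Continuous θ ∧ (∀ γ, algebraMap K L (θ γ) = (G γ).trace) ∧
      ∀ u, (∀ w, D (w * u) = D w ∧ E (w * u) = E w) → ∀ γ, θ (γ * u) = θ γ := by
  have hN : ∀ γ : Γ, ∃ N : ℕ, ∀ a, N ≤ a → D (σ ^ a * γ) ≠ 0 := by
    intro γ
    obtain ⟨b, hb⟩ := (hD0 γ).bddAbove
    refine ⟨b + 1, fun a ha h0 => ?_⟩
    have := hb (show a ∈ {a : ℕ | D (σ ^ a * γ) = 0} from h0)
    omega
  choose N hN using hN
  choose d Q hQ using fun γ : Γ => exists_coeffs M P hP hX (N γ)
  set F : Γ → Γ → K := fun γ γ' => ∑ i ∈ Finset.range (d γ), Q γ i *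
    (E (σ ^ (N γ + i) * γ') / D (σ ^ (N γ + i) * γ')) with hF
  have key : ∀ γ γ' : Γ, (∀ i ∈ Finset.range (d γ), D (σ ^ (N γ + i) * γ') ≠ 0) →
      algebraMap K L (F γ γ') = (G γ').trace := by
    intro γ γ' hne
    rw [hQ γ (G γ'), hF]
    simp only [map_sum, map_mul]
    refine Finset.sum_congr rfl fun i hi => ?_
    congr 1
    have h1 := h γ' (N γ + i)
    have h2 : algebraMap K L (D (σ ^ (N γ + i) * γ')) ≠ 0 := by
      intro h3
      exact hne i hi ((map_eq_zero _).1 h3)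
    rw [map_div₀, div_eq_iff h2, ← h1, mul_comm]
  have inj := (algebraMap K L).injective
  have self : ∀ γ : Γ, algebraMap K L (F γ γ) = (G γ).trace := fun γ =>
    key γ γ fun i _ => hN γ _ (Nat.le_add_right _ _)
  refine ⟨fun γ => F γ γ, ?_, self, ?_⟩
  · rw [continuous_iff_continuousAt]
    intro γ
    have hc : ∀ a : ℕ, Continuous fun γ' : Γ => σ ^ a * γ' := fun a => continuous_const_mul _
    have h1 : ContinuousAt (F γ) γ := by
      rw [hF]
      refine tendsto_finsetSum _ fun i _ => ?_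
      refine Filter.Tendsto.const_mul _ ?_
      exact (hE.comp (hc _)).continuousAt.div (hD.comp (hc _)).continuousAt
        (hN γ _ (Nat.le_add_right _ _))
    refine h1.congr ?_
    have h2 : ∀ᶠ γ' in 𝓝 γ, ∀ i ∈ Finset.range (d γ), D (σ ^ (N γ + i) * γ') ≠ 0 := by
      rw [Filter.eventually_all_finset]
      intro i _
      exact (hD.comp (hc (N γ + i))).continuousAt.eventually_ne
        (hN γ _ (Nat.le_add_right _ _))
    filter_upwards [h2] with γ' h3
    exact inj ((key γ γ' h3).trans (self γ').symm)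
  · intro u hu γ
    have h1 : ∀ a : ℕ, σ ^ a * (γ * u) = σ ^ a * γ * u := fun a => (mul_assoc _ _ _).symm
    have h2 : F γ (γ * u) = F γ γ := by
      rw [hF]
      simp only [h1, (hu _).1, (hu _).2]
    have h3 := key γ (γ * u) (fun i _ => by
      rw [h1, (hu _).1]
      exact hN γ _ (Nat.le_add_right _ _))
    show F (γ * u) (γ * u) = F γ γ
    rw [← h2]
    exact inj ((self (γ * u)).trans h3.symm)

end Pool.Agent.Lib.MP_666dc0_nt.DS
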