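import Pool.Agent.Lib.MP_666dc0_nt.LV.Z5

/-!
# Twists by an arbitrary value of the cocharacter
-/

open Polynomial LaurentPolynomial

namespace Pool.Agent.Lib.MP_666dc0_nt.DS

open Pool.Agent.Lib.MP_666dc0_nt.IG Pool.Agent.Lib.MP_666dc0_nt.LV

/-- A Laurent polynomial over a field of characteristic zero vanishing at all rational numbers
different from zero is zero. -/
theorem laurent_eq_zero {Ω : Type} [Field Ω] [Algebra ℚ Ω] (F : LaurentPolynomial Ω)
    (h : ∀ t : ℚˣ, LaurentPolynomial.eval₂ (RingHom.id Ω)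
      (Units.map (algebraMap ℚ Ω : ℚ →* Ω) t) F = 0) : F = 0 := by
  have hch : CharZero Ω := algebraRat.charZero Ω
  obtain ⟨N, q, hq⟩ := LaurentPolynomial.exists_T_pow F
  have h1 : q = 0 := by
    refine Polynomial.eq_zero_of_infinite_isRoot q ?_
    have h2 : Set.range (fun n : ℕ => ((n + 1 : ℕ) : Ω)) ⊆ {x | IsRoot q x} := by
      rintro _ ⟨n, rfl⟩
      have h3 := h (Units.mk0 ((n + 1 : ℕ) : ℚ) (by exact_mod_cast n.succ_ne_zero))
      have h4 := congrArg (LaurentPolynomial.eval₂ (RingHom.id Ω) (Units.map (algebraMap ℚ Ω :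
        ℚ →* Ω) (Units.mk0 ((n + 1 : ℕ) : ℚ) (by exact_mod_cast n.succ_ne_zero)))) hq
      rw [map_mul, h3, zero_mul, LaurentPolynomial.eval₂_toLaurent] at h4
      change IsRoot q _
      rw [IsRoot.def]
      have h5 : ((Units.map (algebraMap ℚ Ω : ℚ →* Ω) (Units.mk0 ((n + 1 : ℕ) : ℚ)
          (by exact_mod_cast n.succ_ne_zero)) : Ωˣ) : Ω) = ((n + 1 : ℕ) : Ω) := by
        rw [Units.coe_map, Units.val_mk0]
        exact map_natCast (algebraMap ℚ Ω) _
      rw [h5] at h4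
      exact h4
    refine Set.Infinite.mono h2 (Set.infinite_range_of_injective ?_)
    intro a b hab
    have h3 : a + 1 = b + 1 := Nat.cast_injective hab
    omega
  rw [h1, map_zero] at hq
  have h2 : F = F * (LaurentPolynomial.T (N : ℤ)) * LaurentPolynomial.T (-(N : ℤ)) := by
    rw [mul_assoc, ← LaurentPolynomial.T_add, add_neg_cancel, LaurentPolynomial.T_zero, mul_one]
  rw [h2, ← hq, zero_mul]

/-- The class of `incl g * μ(c)` in `ᴸG` depends only on the class of `g` in `ᴸM`. -/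
theorem twist_congr {Γ : Type} [Group Γ] {O O' : Type} [CommRing O] [HopfAlgebra ℚ O]
    [CommRing O'] [HopfAlgebra ℚ O'] {A : HopfAction Γ O} {A' : HopfAction Γ O'}
    {π : O →ₐc[ℚ] O'} {μ : O →ₐc[ℚ] ℚ[T;T⁻¹]} (hM : IsLevi A A' π μ) (σ : Γ)
    {Ω : Type} [Field Ω] [Algebra ℚ Ω] (c : Ωˣ) {g g' : Pts O' Ω}
    (h : ∀ f ∈ A'.inv σ, g'.hom f = g.hom f) :
    ∀ f ∈ A.inv σ, (Pts.incl π g' * Pts.cochar μ c).hom f =
      (Pts.incl π g * Pts.cochar μ c).hom f := by
  intro f hf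
  have hch : CharZero Ω := algebraRat.charZero Ω
  let Cc : Ω →ₐ[ℚ] LaurentPolynomial Ω := (algebraMap Ω (LaurentPolynomial Ω)).toRatAlgHom
  let Tu : (LaurentPolynomial Ω)ˣ :=
    { val := LaurentPolynomial.T 1
      inv := LaurentPolynomial.T (-1)
      val_inv := by rw [← LaurentPolynomial.T_add, add_neg_cancel, LaurentPolynomial.T_zero]
      inv_val := by rw [← LaurentPolynomial.T_add, neg_add_cancel, LaurentPolynomial.T_zero] }
  let ev : Ωˣ → LaurentPolynomial Ω →ₐ[ℚ] Ω := fun t =>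
    (LaurentPolynomial.eval₂ (RingHom.id Ω) t).toRatAlgHom
  have hev : ∀ (t : Ωˣ) (k : Pts O' Ω), Pts.map (ev t) (Pts.incl π (Pts.map Cc k) *
      Pts.cochar μ Tu) = Pts.incl π k * Pts.cochar μ t := by
    intro t k
    rw [map_mul, incl_map, cochar_map]
    congr 1
    · congr 1
      ext f
      change LaurentPolynomial.eval₂ (RingHom.id Ω) t (LaurentPolynomial.C (k.hom f)) = k.hom f
      rw [LaurentPolynomial.eval₂_C]
      rfl
    · congr 1
      ext
      change LaurentPolynomial.eval₂ (RingHom.id Ω) t (LaurentPolynomial.T 1) = t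
      rw [LaurentPolynomial.eval₂_T, zpow_one]
  have key : (Pts.incl π (Pts.map Cc g') * Pts.cochar μ Tu).hom f =
      (Pts.incl π (Pts.map Cc g) * Pts.cochar μ Tu).hom f := by
    rw [← sub_eq_zero]
    refine laurent_eq_zero _ fun t => ?_
    rw [map_sub, sub_eq_zero]
    have h1 : ∀ k : Pts O' Ω, LaurentPolynomial.eval₂ (RingHom.id Ω)
        (Units.map (algebraMap ℚ Ω : ℚ →* Ω) t)
        ((Pts.incl π (Pts.map Cc k) * Pts.cochar μ Tu).hom f) =
        (Pts.incl π k * Pts.cochar μ (Units.map (algebraMap ℚ Ω : ℚ →* Ω) t)).hom f := by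
      intro k
      rw [← hev (Units.map (algebraMap ℚ Ω : ℚ →* Ω) t) k]
      rfl
    have h2 := cls_twist_congr hM σ t h
    have h3 := congrArg (fun ψ : A.inv σ →+* Ω => ψ ⟨f, hf⟩) h2
    exact (h1 g').trans (h3.trans (h1 g).symm)
  rw [← hev c g', ← hev c g, Pts.map_hom_apply, Pts.map_hom_apply, key]

end Pool.Agent.Lib.MP_666dc0_nt.DS
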