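import Pool.Agent.Lib.MP_666dc0_nt.DS.A3
import Pool.Agent.Lib.MP_666dc0_nt.LD.EC3

/-!
# An element with given semisimple part: preparations
-/

open Polynomial

namespace Pool.Agent.Lib.MP_666dc0_nt.DS

variable {K Ω : Type} [Field K] [Field Ω] [Algebra K Ω] {n : ℕ}

/-- Let `S = Y₀ dg(T)` be the semisimple part of `Xm`, where `Y₀` is diagonalisable over `K` and
commutes with the projectors `e j`. Then `Xm = Y dg(T)` where `Y` commutes with the `e j` and is killed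
by a polynomial over `K` with non-zero constant coefficient, and the `e j` are polynomials in `Xm`. -/
theorem heart_prep {J : Finset ℤ} {e : ℤ → Matrix (Fin n) (Fin n) Ω} (he : LD.Proj J e) (T : Ω)
    (hT0 : T ≠ 0) (hT : ∀ (α β : K) (i j : ℤ), α ≠ 0 → β ≠ 0 →
      algebraMap K Ω α * T ^ i = algebraMap K Ω β * T ^ j → i = j)
    (Λ : Finset K) (h0 : (0 : K) ∉ Λ) (Xm S Y₀ : Matrix (Fin n) (Fin n) Ω)
    (hS : S = Y₀ * LD.dg J e T) (hYe : ∀ j ∈ J, e j * Y₀ = Y₀ * e j)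
    (hΛ : aeval Y₀ (∏ α ∈ Λ, (X - C (algebraMap K Ω α))) = 0)
    (hQ : ∃ Q : Polynomial Ω, S = aeval Xm Q) (hnil : IsNilpotent (Xm - S)) :
    ∃ (Y : Matrix (Fin n) (Fin n) Ω) (P : K[X]), P.coeff 0 ≠ 0 ∧ Xm = Y * LD.dg J e T ∧
      (∀ j ∈ J, e j * Y = Y * e j) ∧ aeval Y (P.map (algebraMap K Ω)) = 0 ∧
      ∀ i ∈ J, ∃ Q : Polynomial Ω, aeval Xm Q = e i := by
  classical
  obtain ⟨Q, hQ⟩ := hQ
  -- the projectors are polynomials in `Xm`
  have hproj : ∀ i ∈ J, ∃ q : Polynomial Ω, aeval Xm q = e i := by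
    intro i hi
    obtain ⟨q, hq⟩ := LD.exists_proj_poly (n := n) T hT0 hT J Λ h0 i
    refine ⟨q.comp Q, ?_⟩
    rw [aeval_comp, ← hQ, hS]
    exact hq e he Y₀ hYe hΛ hi
  have hproj' : ∀ i, ∃ q : Polynomial Ω, i ∈ J → aeval Xm q = e i := by
    intro i
    by_cases hi : i ∈ J
    · obtain ⟨q, hq⟩ := hproj i hi
      exact ⟨q, fun _ => hq⟩
    · exact ⟨0, fun h => absurd h hi⟩
  choose q hq using hproj'
  have hTi0 : T⁻¹ ≠ 0 := inv_ne_zero hT0
  have hdg : LD.dg J e T⁻¹ = aeval Xm (∑ j ∈ J, C (T⁻¹ ^ j) * q j) := by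
    rw [LD.dg, map_sum]
    refine Finset.sum_congr rfl fun j hj => ?_
    rw [map_mul, aeval_C, hq j hj, Algebra.smul_def]
  have hdd : LD.dg J e T * LD.dg J e T⁻¹ = 1 := by
    rw [he.mul_dg T T⁻¹ hT0 hTi0, mul_inv_cancel₀ hT0, LD.dg]
    simp only [one_zpow, one_smul]
    exact he.sum_eq
  have hdd' : LD.dg J e T⁻¹ * LD.dg J e T = 1 := by
    rw [he.mul_dg T⁻¹ T hTi0 hT0, inv_mul_cancel₀ hT0, LD.dg]
    simp only [one_zpow, one_smul]
    exact he.sum_eq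
  have hcomm : ∀ p p' : Polynomial Ω, Commute (aeval Xm p) (aeval Xm p') := fun p p' =>
    (Commute.all p p').map (aeval (R := Ω) Xm)
  set q₁ : Polynomial Ω := X * (∑ j ∈ J, C (T⁻¹ ^ j) * q j) with hq₁
  set q₀ : Polynomial Ω := Q * (∑ j ∈ J, C (T⁻¹ ^ j) * q j) with hq₀
  have hY₀ : Y₀ = aeval Xm q₀ := by
    rw [hq₀, map_mul, ← hQ, ← hdg, hS, mul_assoc, hdd, mul_one]
  have hY : aeval Xm q₁ = Xm * LD.dg J e T⁻¹ := by
    rw [hq₁, map_mul, aeval_X, ← hdg]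
  set R : K[X] := ∏ α ∈ Λ, (X - C α) with hR
  have hRmap : R.map (algebraMap K Ω) = ∏ α ∈ Λ, (X - C (algebraMap K Ω α)) := by
    rw [hR, Polynomial.map_prod]
    refine Finset.prod_congr rfl fun α _ => ?_
    rw [Polynomial.map_sub, map_X, map_C]
  have hR0 : R.coeff 0 ≠ 0 := by
    rw [coeff_zero_eq_eval_zero, hR, eval_prod, Finset.prod_ne_zero_iff]
    intro α hα h
    rw [eval_sub, eval_X, eval_C, zero_sub, neg_eq_zero] at h
    exact h0 (h ▸ hα)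
  have hnil1 : IsNilpotent (aeval Xm q₁ - Y₀) := by
    have h1 : aeval Xm q₁ - Y₀ = (Xm - S) * LD.dg J e T⁻¹ := by
      rw [hY, sub_mul, hS, mul_assoc Y₀, hdd, mul_one]
    rw [h1]
    have h2 : Commute (Xm - S) (LD.dg J e T⁻¹) := by
      have h3 : Xm - S = aeval Xm (X - Q) := by rw [map_sub, aeval_X, ← hQ]
      rw [h3, hdg]
      exact hcomm _ _
    exact h2.isNilpotent_mul_right hnil
  have hnil2 : IsNilpotent (aeval (aeval Xm q₁) (R.map (algebraMap K Ω))) := by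
    obtain ⟨w, hw⟩ := Polynomial.sub_dvd_eval_sub q₁ q₀
      ((R.map (algebraMap K Ω)).map (C : Ω →+* Polynomial Ω))
    have h1 : ∀ p : Polynomial Ω, ((R.map (algebraMap K Ω)).map (C : Ω →+* Polynomial Ω)).eval p =
        (R.map (algebraMap K Ω)).comp p := fun p => by rw [eval_map, comp]
    rw [h1, h1] at hw
    have h2 := congrArg (aeval Xm) hw
    rw [map_sub, map_mul, map_sub, aeval_comp, aeval_comp, ← hY₀, hRmap, hΛ, sub_zero, ← hRmap] at h2
    rw [h2]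
    have h3 : Commute (aeval Xm q₁ - Y₀) (aeval Xm w) := by
      rw [hY₀, ← map_sub]
      exact hcomm _ _
    exact h3.isNilpotent_mul_right hnil1
  obtain ⟨N, hN⟩ := hnil2
  refine ⟨aeval Xm q₁, R ^ N, ?_, ?_, ?_, ?_, hproj⟩
  · rw [coeff_zero_eq_eval_zero, eval_pow, ← coeff_zero_eq_eval_zero]
    exact pow_ne_zero _ hR0
  · rw [hY, mul_assoc, hdd', mul_one]
  · intro j hj
    rw [← hq j hj]
    exact hcomm _ _
  · rw [Polynomial.map_pow, map_pow, hN]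

end Pool.Agent.Lib.MP_666dc0_nt.DS
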