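import Pool.Agent.Lib.MP_666dc0_nt.DS.A3
import Pool.Agent.Lib.MP_666dc0_nt.LV.N2

/-!
# The functions along the words `σ ^ a γ σ ^ b δ`
-/

open Polynomial

namespace Pool.Agent.Lib.MP_666dc0_nt.DS

open Pool.Agent.Lib.MP_666dc0_nt.LV

variable {K L : Type} [Field K] [Field L] [Algebra K L] {n : ℕ} {Γ : Type} [Group Γ]

/-- The element `σ ^ a * γ * σ ^ b * δ` of `Γ` for `x = (a, b)`. -/
def wn (σ γ δ : Γ) (x : ℕ × ℕ) : Γ := σ ^ x.1 * γ * σ ^ x.2 * δ

theorem pow_mem_CE' (u : Kˣ) : (fun a : ℕ => (algebraMap K L (u : K)) ^ a) ∈ CE K L := by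
  refine mem_CE.2 ⟨[u], ?_⟩
  rw [kills_cons, kills_nil, aeval_sh_sub]
  funext a
  rw [pow_succ, mul_comm, sub_self, Pi.zero_apply]

/-- Characters. -/
theorem char_wn_mem (s : Γ →* Kˣ) (σ γ δ : Γ) (m : ℤ) :
    (fun x : ℕ × ℕ => (algebraMap K L (s (wn σ γ δ x) : K)) ^ m) ∈ CE2 K L := by
  have h : (fun x : ℕ × ℕ => (algebraMap K L (s (wn σ γ δ x) : K)) ^ m) =
      (algebraMap K L (((s γ * s δ) ^ m : Kˣ) : K)) •
        ((fun x : ℕ × ℕ => (algebraMap K L ((s σ ^ m : Kˣ) : K)) ^ x.1) *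
          fun x : ℕ × ℕ => (algebraMap K L ((s σ ^ m : Kˣ) : K)) ^ x.2) := by
    funext x
    rw [Pi.smul_apply, Pi.mul_apply, smul_eq_mul, ← map_zpow₀, ← Units.val_zpow_eq_zpow_val,
      ← map_pow (algebraMap K L), ← map_pow (algebraMap K L), ← Units.val_pow_eq_pow_val,
      ← Units.val_pow_eq_pow_val, ← map_mul (algebraMap K L), ← Units.val_mul,
      ← map_mul (algebraMap K L), ← Units.val_mul]
    congr 2
    simp only [wn, map_mul, map_pow]
    rw [mul_zpow, mul_zpow, mul_zpow, mul_zpow]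
    have e : ∀ k : ℕ, (s σ ^ k) ^ m = (s σ ^ m) ^ k := fun k => by
      rw [← zpow_natCast, ← zpow_natCast, ← zpow_mul, ← zpow_mul, mul_comm]
    rw [e, e]
    ac_rfl
  rw [h]
  exact Subalgebra.smul_mem _ (Subalgebra.mul_mem _ (fst_mem_CE2 (pow_mem_CE' _))
    (snd_mem_CE2 (pow_mem_CE' _))) _

theorem map_charpoly_kills (M M' : Matrix (Fin n) (Fin n) K) (h : M * M' = 1) :
    M.charpoly.coeff 0 ≠ 0 ∧
      aeval (M.map (algebraMap K L)) (M.charpoly.map (algebraMap K L)) = 0 := by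
  constructor
  · intro h1
    have h2 := Matrix.det_eq_sign_charpoly_coeff M
    rw [h1, mul_zero] at h2
    have h3 := congrArg Matrix.det h
    rw [Matrix.det_mul, h2, zero_mul, Matrix.det_one] at h3
    exact zero_ne_one h3
  · rw [← Matrix.charpoly_map]
    exact Matrix.aeval_self_charpoly _

/-- Traces. -/
theorem trace_wn_mem [IsAlgClosed K] (ρ : Γ →* Matrix (Fin n) (Fin n) K) (σ γ δ : Γ) :
    (fun x : ℕ × ℕ => algebraMap K L (ρ (wn σ γ δ x)).trace) ∈ CE2 K L := by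
  have h0 := map_charpoly_kills (L := L) (ρ σ) (ρ σ⁻¹) (by rw [← map_mul, mul_inv_cancel, map_one])
  have h1 := trace_mem_CE2 ((ρ σ).map (algebraMap K L)) ((ρ σ).map (algebraMap K L)) _ _ h0.1 h0.2
    h0.1 h0.2 1 ((ρ γ).map (algebraMap K L)) ((ρ δ).map (algebraMap K L))
  have h : (fun x : ℕ × ℕ => algebraMap K L (ρ (wn σ γ δ x)).trace) = fun x : ℕ × ℕ =>
      (1 * ((ρ σ).map (algebraMap K L)) ^ x.1 * (ρ γ).map (algebraMap K L) *
        ((ρ σ).map (algebraMap K L)) ^ x.2 * (ρ δ).map (algebraMap K L)).trace := by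
    funext x
    have e : (ρ (wn σ γ δ x)).map (algebraMap K L) =
        1 * ((ρ σ).map (algebraMap K L)) ^ x.1 * (ρ γ).map (algebraMap K L) *
        ((ρ σ).map (algebraMap K L)) ^ x.2 * (ρ δ).map (algebraMap K L) := by
      simp only [wn, map_mul, map_pow, Matrix.map_mul, Matrix.map_pow, one_mul]
    rw [← e, Matrix.trace, map_sum]
    rfl
  rw [h]
  exact h1

/-- `D` and `E l` along `wn`. -/
theorem det_wn_mem (J : Finset ℤ) (kv : Fin J.card → ℤ) (s : Γ →* Kˣ) (σ γ δ : Γ) :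
    (fun x : ℕ × ℕ => algebraMap K L (LD.vdm (jv J) kv (s (wn σ γ δ x) : K)).det) ∈ CE2 K L := by
  have h : (fun x : ℕ × ℕ => algebraMap K L (LD.vdm (jv J) kv (s (wn σ γ δ x) : K)).det) =
      fun x => (LD.vdm (jv J) kv (algebraMap K L (s (wn σ γ δ x) : K))).det := by
    funext x
    exact LD.map_vdm_det _ _ _ _
  rw [h]
  exact LD.det_mem (CE2 K L) (jv J) kv _ fun m => char_wn_mem s σ γ δ m

theorem eta_wn_mem [IsAlgClosed K] (J : Finset ℤ) (kv : Fin J.card → ℤ) (s : Γ →* Kˣ)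
    (ρ : Fin J.card → Γ →* Matrix (Fin n) (Fin n) K) (σ γ δ : Γ) (l : ℤ) :
    (fun x : ℕ × ℕ => algebraMap K L (etaJ J kv (s (wn σ γ δ x) : K)
      (fun b => (ρ b (wn σ γ δ x)).trace) l)) ∈ CE2 K L := by
  have h : (fun x : ℕ × ℕ => algebraMap K L (etaJ J kv (s (wn σ γ δ x) : K)
      (fun b => (ρ b (wn σ γ δ x)).trace) l)) = ∑ a, if jv J a = l then
        (fun x => LD.eta (jv J) kv (algebraMap K L (s (wn σ γ δ x) : K))
          (fun b => algebraMap K L (ρ b (wn σ γ δ x)).trace) a) else 0 := by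
    funext x
    rw [Finset.sum_apply, etaJ, map_sum]
    refine Finset.sum_congr rfl fun a _ => ?_
    split_ifs
    · exact LD.map_eta _ _ _ _ _ _
    · exact map_zero _
  rw [h]
  refine Subalgebra.sum_mem _ fun a _ => ?_
  split_ifs
  · exact LD.eta_mem (CE2 K L) (jv J) kv _ (fun m => char_wn_mem s σ γ δ m)
      (fun b x => algebraMap K L (ρ b (wn σ γ δ x)).trace)
      (fun b => trace_wn_mem (ρ b) σ γ δ) a
  · exact Subalgebra.zero_mem _

end Pool.Agent.Lib.MP_666dc0_nt.DS
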