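import Pool.Agent.Lib.MP_666dc0_nt.DS.H1
import Pool.Agent.Lib.MP_666dc0_nt.DS.M1
import Pool.Agent.Lib.MP_666dc0_nt.LV.Hc

/-!
# The heart of the proof
-/

open Polynomial LaurentPolynomial

namespace Pool.Agent.Lib.MP_666dc0_nt.DS

open Pool.Agent.Lib.MP_666dc0_nt.IG Pool.Agent.Lib.MP_666dc0_nt.LV

variable {O O' : Type} [CommRing O] [HopfAlgebra ℚ O] [CommRing O'] [HopfAlgebra ℚ O'] {Γ : Type}
  [Group Γ] {A : HopfAction Γ O} {A' : HopfAction Γ O'} {π : O →ₐc[ℚ] O'}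
  {μ : O →ₐc[ℚ] ℚ[T;T⁻¹]} {n : ℕ}

/-- `heart_prep` for an element `x` of the L-group with semisimple part `(incl m · μ(c), σ)`. -/
theorem heart_prep_ev (hM : IsLevi A A' π μ) {ρ : MatRep A n} {J : Finset ℤ}
    {p : ℤ → Matrix (Fin n) (Fin n) ℚ} (hW : Wts μ ρ J p) {K Ω : Type} [Field K] [Algebra ℚ K]
    [Field Ω] [Algebra ℚ Ω] [Algebra K Ω] (m : Pts O' K) (c : Ωˣ) (hc : Transcendental K (c : Ω))
    (x y : A.LGroup Ω)
    (hy : y.left = Pts.incl π (Pts.map (algebraMap K Ω).toRatAlgHom m) * Pts.cochar μ c)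
    (hm : DG (ρ.ev K (⟨Pts.incl π m, y.right⟩ : A.LGroup K)))
    (hQ : ∃ Q : Polynomial Ω, ρ.ev Ω y = aeval (ρ.ev Ω x) Q)
    (hnil : IsNilpotent (ρ.ev Ω x - ρ.ev Ω y)) :
    ∃ (Y : Matrix (Fin n) (Fin n) Ω) (P : K[X]), P.coeff 0 ≠ 0 ∧
      ρ.ev Ω x = Y * LD.dg J (pj Ω p) (c : Ω) ∧ (∀ j ∈ J, pj Ω p j * Y = Y * pj Ω p j) ∧
      aeval Y (P.map (algebraMap K Ω)) = 0 ∧
      ∀ i ∈ J, ∃ Q : Polynomial Ω, aeval (ρ.ev Ω x) Q = pj Ω p i := by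
  obtain ⟨Λ, h0, hΛ⟩ := DG.exists_Lam hm Ω
  have hYe : ∀ j ∈ J, pj Ω p j *
      (ρ.ev K (⟨Pts.incl π m, y.right⟩ : A.LGroup K)).map (algebraMap K Ω) =
      (ρ.ev K (⟨Pts.incl π m, y.right⟩ : A.LGroup K)).map (algebraMap K Ω) * pj Ω p j := by
    intro j hj
    have h1 := congrArg (fun B => B.map (algebraMap K Ω)) (ev_incl_comm hM hW m y.right hj)
    simp only [Matrix.map_mul] at h1
    rw [pj_map] at h1
    exact h1
  exact heart_prep (hW.proj Ω) (c : Ω) c.ne_zero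
    (fun α β i j hα hβ h => types_of_transcendental hc α β i j hα hβ h) Λ h0 (ρ.ev Ω x)
    (ρ.ev Ω y) _ (ev_eq_dg hM hW m c y hy) hYe hΛ hQ hnil

/-- A minimal point `r` such that the semisimple part of `r σ` is `(incl m · μ(c σ), σ)`, satisfying
identity I, commutes with the cocharacter `μ`. -/
theorem heart_comm {G : Red n} (hM : IsLevi A A' π μ) {ρ : MatRep A n} (hG : IsRedG ρ G)
    (hρ : Faithful ρ) (TD : TensorData G) {J : Finset ℤ} {p : ℤ → Matrix (Fin n) (Fin n) ℚ}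
    (hW : Wts μ ρ J p) {K K1 Ω : Type} [Field K] [IsAlgClosed K] [CharZero K] [Algebra ℚ K]
    [Field K1] [CharZero K1] [Field Ω] [IsAlgClosed Ω] [Algebra ℚ Ω] [Algebra K1 Ω] [Algebra K Ω]
    {V : Γ → O → K1} {r : Γ →* A.LGroup Ω} (h : IsMinPt ρ V Ω r) (σ : Γ) (m : Pts O' K)
    (c : Γ →* Ωˣ) (hc : Transcendental K (c σ : Ω)) (y : A.LGroup Ω) (hyr : y.right = σ)
    (hy : y.left = Pts.incl π (Pts.map (algebraMap K Ω).toRatAlgHom m) * Pts.cochar μ (c σ))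
    (hm : DG (ρ.ev K (⟨Pts.incl π m, σ⟩ : A.LGroup K)))
    (hQ : ∃ Q : Polynomial Ω, ρ.ev Ω y = aeval (ρ.ev Ω (r σ)) Q)
    (hnil : IsNilpotent (ρ.ev Ω (r σ) - ρ.ev Ω y)) (D : Γ → K) (E : ℤ → Γ → K)
    (hid : ∀ w, algebraMap K Ω (D w) * (ρ.ev Ω (r w)).trace =
      ∑ l ∈ J, (c w : Ω) ^ l * algebraMap K Ω (E l w))
    (hD0 : ∀ γ, {a : ℕ | D (σ ^ a * γ) = 0}.Finite)
    (hDch : ∀ γ δ, (fun x : ℕ × ℕ => algebraMap K Ω (D (wn σ γ δ x))) ∈ CE2 K Ω)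
    (hEch : ∀ l, ∀ γ δ, (fun x : ℕ × ℕ => algebraMap K Ω (E l (wn σ γ δ x))) ∈ CE2 K Ω) :
    ∀ γ, ∀ l ∈ J, pj Ω p l * ρ.ev Ω (r γ) = ρ.ev Ω (r γ) * pj Ω p l := by
  haveI : CharZero Ω := algebraRat.charZero Ω
  have hq := hW.proj Ω
  obtain ⟨Y, P, hP0, hev, hYe, hPY, hpol⟩ := heart_prep_ev hM hW m (c σ) hc (r σ) y hy
    (by rw [hyr]; exact hm) hQ hnil
  have hT : ∀ (α β : K) (i j : ℤ), α ≠ 0 → β ≠ 0 →
      algebraMap K Ω α * (c σ : Ω) ^ i = algebraMap K Ω β * (c σ : Ω) ^ j → i = j :=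
    fun α β i j hα hβ h => types_of_transcendental hc α β i j hα hβ h
  have hsp : ∀ l ∈ J, pj Ω p l ∈ spA ρ r Ω := by
    intro i hi
    obtain ⟨Q, hQ⟩ := hpol i hi
    rw [← hQ]
    exact aeval_mem_spA ρ r σ Q
  have hkey : ∀ i ∈ J, ∀ j ∈ J, i ≠ j → ∀ γ δ,
      (pj Ω p i * ρ.ev Ω (r γ) * pj Ω p j * ρ.ev Ω (r δ)).trace = 0 := by
    intro i hi j hj hij γ δ
    refine trace_offdiag (c σ : Ω) (c σ).ne_zero hT hq Y hYe P hP0 hPY (ρ.ev Ω (r γ))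
      (ρ.ev Ω (r δ)) (fun x => algebraMap K Ω (D (wn σ γ δ x)))
      (fun l x => (((c γ * c δ : Ωˣ) : Ω) ^ l) * algebraMap K Ω (E l (wn σ γ δ x)))
      (hDch γ δ) ?_ ?_ ?_ hi hj hij
    · intro l _
      exact Subalgebra.mul_mem _
        ((CE2 K Ω).algebraMap_mem (((c γ * c δ : Ωˣ) : Ω) ^ l)) (hEch l γ δ)
    · refine (hD0 (γ * δ)).subset fun a ha => ?_
      have h1 : algebraMap K Ω (D (wn σ γ δ (a, 0))) = 0 := ha
      rw [map_eq_zero] at h1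
      have h2 : wn σ γ δ (a, 0) = σ ^ a * (γ * δ) := by
        change σ ^ a * γ * σ ^ 0 * δ = _
        rw [pow_zero, mul_one, mul_assoc]
      rw [h2] at h1
      exact h1
    · intro a b
      have h1 := hid (wn σ γ δ (a, b))
      have h2 : ρ.ev Ω (r (wn σ γ δ (a, b))) =
          (Y * LD.dg J (pj Ω p) (c σ : Ω)) ^ a * ρ.ev Ω (r γ) *
            (Y * LD.dg J (pj Ω p) (c σ : Ω)) ^ b * ρ.ev Ω (r δ) := by
        change ρ.ev Ω (r (σ ^ a * γ * σ ^ b * δ)) = _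
        rw [map_mul, map_mul, map_mul, map_mul, map_mul, map_mul, map_pow, map_pow, map_pow,
          map_pow, ← hev]
      have h3 : c (wn σ γ δ (a, b)) = c σ ^ (a + b) * (c γ * c δ) := by
        change c (σ ^ a * γ * σ ^ b * δ) = _
        rw [map_mul, map_mul, map_mul, map_pow, map_pow, pow_add]
        simp only [mul_assoc]
        rw [mul_left_comm (c γ)]
      rw [h2, h3] at h1
      rw [h1]
      refine Finset.sum_congr rfl fun l _ => ?_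
      rw [Units.val_mul, Units.val_pow_eq_pow_val, mul_zpow, ← mul_assoc]
      congr 2
      rw [← zpow_natCast, ← zpow_mul]
      congr 1
      push_cast
      ring
  have h2 : (2 : Ω) ≠ 0 := two_ne_zero
  have hz : ρ.gm (Pts.cochar μ (Units.mk0 (2 : Ω) h2)) = ∑ l ∈ J, (2 : Ω) ^ l • pj Ω p l := by
    rw [hW.gm Ω]
    refine Finset.sum_congr rfl fun l _ => ?_
    rw [Units.val_zpow_eq_zpow_val, Units.val_mk0]
    rfl
  intro γ l hl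
  exact commute_of_key ρ hG hρ TD h hq hsp hkey _ hz γ l hl

/-- The traces of the `e_l ρ(incl r' γ, γ)` from identity I. -/
theorem heart_trace (hM : IsLevi A A' π μ) {ρ : MatRep A n} {J : Finset ℤ}
    {p : ℤ → Matrix (Fin n) (Fin n) ℚ} (hW : Wts μ ρ J p) {K Ω : Type} [Field K] [IsAlgClosed K]
    [Algebra ℚ K] [Field Ω] [Algebra ℚ Ω] [Algebra K Ω]
    {r : Γ →* A.LGroup Ω} (hr : ∀ γ, (r γ).right = γ) (σ : Γ)
    (c : Γ →* Ωˣ) (hc : Transcendental K (c σ : Ω)) (Y : Matrix (Fin n) (Fin n) Ω) (P : K[X])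
    (hP0 : P.coeff 0 ≠ 0) (hev : ρ.ev Ω (r σ) = Y * LD.dg J (pj Ω p) (c σ : Ω))
    (hYe : ∀ j ∈ J, pj Ω p j * Y = Y * pj Ω p j)
    (hPY : aeval Y (P.map (algebraMap K Ω)) = 0) (D : Γ → K) (E : ℤ → Γ → K)
    (hid : ∀ w, algebraMap K Ω (D w) * (ρ.ev Ω (r w)).trace =
      ∑ l ∈ J, (c w : Ω) ^ l * algebraMap K Ω (E l w))
    (hDch : ∀ γ δ, (fun x : ℕ × ℕ => algebraMap K Ω (D (wn σ γ δ x))) ∈ CE2 K Ω)
    (hEch : ∀ l, ∀ γ δ, (fun x : ℕ × ℕ => algebraMap K Ω (E l (wn σ γ δ x))) ∈ CE2 K Ω)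
    (r' : Γ →* A'.LGroup Ω)
    (hrr' : ∀ γ, (r γ).left = Pts.incl π (r' γ).left * Pts.cochar μ (c γ)) (γ : Γ) (a : ℕ) {l : ℤ}
    (hl : l ∈ J) :
    algebraMap K Ω (D (σ ^ a * γ)) *
      (Y ^ a * (pj Ω p l * ρ.ev Ω (⟨Pts.incl π (r' γ).left, γ⟩ : A.LGroup Ω))).trace =
      algebraMap K Ω (E l (σ ^ a * γ)) := by
  classical
  have he : LD.Proj J (pj Ω p) := hW.proj Ω
  have hT0 : (c σ : Ω) ≠ 0 := (c σ).ne_zero
  have hc0 : (c γ : Ω) ≠ 0 := (c γ).ne_zero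
  have hwd : ∀ y : ℕ, wn σ γ 1 (y, 0) = σ ^ y * γ := by
    intro y
    simp [wn]
  have hδ : (fun x : ℕ => algebraMap K Ω (D (σ ^ x * γ))) ∈ CE K Ω := by
    have h1 := (mem_CE2.1 (hDch γ 1)).1 0
    simp only [hwd] at h1
    exact h1
  have hη : ∀ l' ∈ J, (fun x : ℕ => (c γ : Ω) ^ l' *
      algebraMap K Ω (E l' (σ ^ x * γ))) ∈ CE K Ω := by
    intro l' _
    have h1 := (mem_CE2.1 (hEch l' γ 1)).1 0
    simp only [hwd] at h1
    exact (CE K Ω).smul_mem h1 ((c γ : Ω) ^ l')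
  have hh : ∀ b : ℕ, algebraMap K Ω (D (σ ^ b * γ)) *
      ((Y * LD.dg J (pj Ω p) (c σ : Ω)) ^ b * ρ.ev Ω (r γ)).trace =
      ∑ l' ∈ J, (c σ : Ω) ^ (l' * (b : ℤ)) * ((c γ : Ω) ^ l' *
        algebraMap K Ω (E l' (σ ^ b * γ))) := by
    intro b
    have h1 := hid (σ ^ b * γ)
    rw [map_mul r, map_mul (ρ.ev Ω), map_pow r, map_pow (ρ.ev Ω), hev] at h1
    rw [h1]
    refine Finset.sum_congr rfl fun l' _ => ?_
    rw [map_mul c, map_pow c, Units.val_mul, Units.val_pow_eq_pow_val, mul_zpow, ← zpow_natCast,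
      ← zpow_mul, mul_comm (b : ℤ) l', mul_assoc]
  have hmain := trace_diag (K := K) (c σ : Ω) hT0
    (fun α β i j hα hβ h => types_of_transcendental hc α β i j hα hβ h) he Y hYe P hP0 hPY
    (ρ.ev Ω (r γ)) (fun b => algebraMap K Ω (D (σ ^ b * γ)))
    (fun l' b => (c γ : Ω) ^ l' * algebraMap K Ω (E l' (σ ^ b * γ))) hδ hη hh hl a
  set N : Matrix (Fin n) (Fin n) Ω := ρ.ev Ω (⟨Pts.incl π (r' γ).left, γ⟩ : A.LGroup Ω) with hN
  have hrγ : r γ = (⟨Pts.incl π (r' γ).left * Pts.cochar μ (c γ), γ⟩ : A.LGroup Ω) :=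
    SemidirectProduct.ext (hrr' γ) (hr γ)
  have hevγ : ρ.ev Ω (r γ) = N * LD.dg J (pj Ω p) (c γ : Ω) := by
    rw [hrγ, ev_mul_cochar hM ρ, hW.dg Ω (c γ)]
  have hNe : pj Ω p l * N = N * pj Ω p l := ev_incl_comm hM hW (R := Ω) (r' γ).left γ hl
  have hXa : pj Ω p l * Y ^ a = Y ^ a * pj Ω p l := by
    have h1 : Commute (pj Ω p l) Y := hYe l hl
    exact h1.pow_right a
  have hprod : pj Ω p l * Y ^ a * ρ.ev Ω (r γ) = (c γ : Ω) ^ l • (Y ^ a * (pj Ω p l * N)) := by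
    rw [hevγ, hXa, mul_assoc, ← mul_assoc (pj Ω p l) N, hNe, mul_assoc N,
      (he.e_mul_dg (c γ : Ω) hl).1, mul_smul_comm, mul_smul_comm]
  rw [hprod, Matrix.trace_smul, smul_eq_mul] at hmain
  have hcl : (c γ : Ω) ^ l ≠ 0 := zpow_ne_zero l hc0
  have hfin : (c γ : Ω) ^ l * (algebraMap K Ω (D (σ ^ a * γ)) * (Y ^ a * (pj Ω p l * N)).trace)
      = (c γ : Ω) ^ l * algebraMap K Ω (E l (σ ^ a * γ)) := by
    rw [← hmain]
    ring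
  exact mul_left_cancel₀ hcl hfin

end Pool.Agent.Lib.MP_666dc0_nt.DS
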