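import Pool.Agent.Lib.MP_666dc0_nt.DS.A2

/-!
# The semisimple part of an exponential polynomial
-/

open Polynomial

namespace Pool.Agent.Lib.MP_666dc0_nt.DS

variable {Ω : Type} [Field Ω]

/-- Chinese remainder theorem. -/
theorem exists_crt (Λ : Finset Ω) (N : ℕ) (g : Ω → Polynomial Ω) :
    ∃ Q : Polynomial Ω, ∀ μ ∈ Λ, (X - C μ) ^ N ∣ Q - g μ := by
  classical
  have h1 : Pairwise (Function.onFun IsCoprime fun i : Λ =>
      Ideal.span {(X - C (i : Ω) : Polynomial Ω) ^ N}) := by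
    intro i j hij
    rw [Function.onFun, Ideal.isCoprime_span_singleton_iff]
    exact (isCoprime_X_sub_C_of_isUnit_sub
      (sub_ne_zero.2 fun h => hij (Subtype.ext h)).isUnit).pow
  obtain ⟨Q, hQ⟩ := Ideal.exists_forall_sub_mem_ideal h1 (fun i => g i)
  exact ⟨Q, fun μ hμ => Ideal.mem_span_singleton.1 (hQ ⟨μ, hμ⟩)⟩

/-- Pairs of a generalised eigenvector `F` of the shift with eigenvalue `μ` and `μ * F 0`. -/
def gensJ (Ω : Type) [Field Ω] : Set ((ℕ → Ω) × Ω) :=
  {p | ∃ (μ : Ωˣ) (k : ℕ), aeval (sh Ω) ((X - C (μ : Ω)) ^ k) p.1 = 0 ∧ p.2 = μ * p.1 0}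

theorem gensJ_mul {p q : (ℕ → Ω) × Ω} (hp : p ∈ gensJ Ω) (hq : q ∈ gensJ Ω) :
    p * q ∈ gensJ Ω := by
  obtain ⟨μ, k, hp1, hp2⟩ := hp
  obtain ⟨ν, m, hq1, hq2⟩ := hq
  have key : ∀ (N k m : ℕ), N = k + m → ∀ f g : ℕ → Ω, aeval (sh Ω) ((X - C (μ : Ω)) ^ k) f = 0 →
      aeval (sh Ω) ((X - C (ν : Ω)) ^ m) g = 0 →
      aeval (sh Ω) ((X - C ((μ * ν : Ωˣ) : Ω)) ^ (k + m)) (f * g) = 0 := by
    intro N
    induction N with
    | zero =>
      intro k m h f g hf _
      have h1 : k = 0 := by omega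
      rw [h1, pow_zero, map_one, Module.End.one_apply] at hf
      rw [hf, zero_mul, map_zero]
    | succ N ih =>
      intro k m h f g hf hg
      rcases k with _ | k
      · rw [pow_zero, map_one, Module.End.one_apply] at hf
        rw [hf, zero_mul, map_zero]
      rcases m with _ | m
      · rw [pow_zero, map_one, Module.End.one_apply] at hg
        rw [hg, mul_zero, map_zero]
      have h1 : aeval (sh Ω) (X - C ((μ * ν : Ωˣ) : Ω)) (f * g) =
          aeval (sh Ω) (X - C (μ : Ω)) f * aeval (sh Ω) (X : Polynomial Ω) g +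
            (μ : Ω) • (f * aeval (sh Ω) (X - C (ν : Ω)) g) := by
        funext a
        rw [aeval_sh_sub, aeval_sh_sub, aeval_sh_sub, aeval_X, Units.val_mul]
        simp only [Pi.mul_apply, Pi.add_apply, Pi.smul_apply, smul_eq_mul, sh_apply]
        ring
      have h2 : k + 1 + (m + 1) = (k + m + 1) + 1 := by ring
      rw [h2, pow_succ, map_mul (aeval (sh Ω)), Module.End.mul_apply, h1, map_add, map_smul]
      have h3 := ih k (m + 1) (by omega) (aeval (sh Ω) (X - C (μ : Ω)) f)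
        (aeval (sh Ω) (X : Polynomial Ω) g) (by
          rw [← Module.End.mul_apply, ← map_mul, ← pow_succ]
          exact hf) (by
          rw [← Module.End.mul_apply, ← map_mul, mul_comm, map_mul, Module.End.mul_apply, hg,
            map_zero])
      have h4 := ih (k + 1) m (by omega) f (aeval (sh Ω) (X - C (ν : Ω)) g) hf (by
          rw [← Module.End.mul_apply, ← map_mul, ← pow_succ]
          exact hg)
      have h5 : k + 1 + m = k + m + 1 := by ring
      have h6 : k + (m + 1) = k + m + 1 := by ring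
      rw [h6] at h3
      rw [h5] at h4
      rw [h3, h4, smul_zero, add_zero]
  refine ⟨μ * ν, k + m, key _ k m rfl _ _ hp1 hq1, ?_⟩
  rw [Prod.snd_mul, hp2, hq2, Prod.fst_mul, Pi.mul_apply, Units.val_mul]
  ring

theorem gensJ_one : (1 : (ℕ → Ω) × Ω) ∈ gensJ Ω := by
  refine ⟨1, 1, ?_, ?_⟩
  · rw [pow_one, aeval_sh_sub]
    funext a
    simp
  · simp

/-- The algebra of exponential polynomials, paired with the value at `1` of their semisimple
parts. -/
def PJ (Ω : Type) [Field Ω] : Subalgebra Ω ((ℕ → Ω) × Ω) := Algebra.adjoin Ω (gensJ Ω)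

theorem mem_PJ_span {p : (ℕ → Ω) × Ω} (hp : p ∈ PJ Ω) : p ∈ Submodule.span Ω (gensJ Ω) := by
  have h1 : p ∈ Subalgebra.toSubmodule (PJ Ω) := hp
  rw [PJ, Algebra.adjoin_eq_span] at h1
  have h2 : (Submonoid.closure (gensJ Ω) : Set ((ℕ → Ω) × Ω)) = gensJ Ω := by
    let M : Submonoid ((ℕ → Ω) × Ω) :=
      { carrier := gensJ Ω
        mul_mem' := fun hp hq => gensJ_mul hp hq
        one_mem' := gensJ_one }
    exact congrArg (fun M : Submonoid ((ℕ → Ω) × Ω) => (M : Set ((ℕ → Ω) × Ω)))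
      (Submonoid.closure_eq M)
  rwa [h2] at h1

/-- The second component is determined by the first. -/
theorem PJ_functional {z : Ω} (h : ((0 : ℕ → Ω), z) ∈ PJ Ω) : z = 0 := by
  classical
  have key : ∀ p ∈ Submodule.span Ω (gensJ Ω), ∃ (S : Finset Ω) (N : ℕ), ∀ Q : Polynomial Ω,
      (∀ μ ∈ S, (X - C μ) ^ N ∣ Q - C μ) → p.2 = aeval (sh Ω) Q p.1 0 := by
    intro p hp
    refine Submodule.span_induction (p := fun p _ => ∃ (S : Finset Ω) (N : ℕ), ∀ Q : Polynomial Ω,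
      (∀ μ ∈ S, (X - C μ) ^ N ∣ Q - C μ) → p.2 = aeval (sh Ω) Q p.1 0) ?_ ?_ ?_ ?_ hp
    · rintro p ⟨μ, k, h1, h2⟩
      refine ⟨{(μ : Ω)}, k, fun Q hQ => ?_⟩
      obtain ⟨R, hR⟩ := hQ μ (Finset.mem_singleton_self _)
      have h3 : aeval (sh Ω) Q p.1 = (μ : Ω) • p.1 := by
        have h4 : Q = R * (X - C (μ : Ω)) ^ k + C (μ : Ω) := by
          rw [mul_comm, ← hR]
          ring
        rw [h4, map_add, LinearMap.add_apply, map_mul, Module.End.mul_apply, h1, map_zero, zero_add,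
          aeval_C, Module.algebraMap_end_apply]
      rw [h3, h2]
      rfl
    · exact ⟨∅, 0, fun Q _ => by simp⟩
    · rintro p q _ _ ⟨S, N, hS⟩ ⟨S', N', hS'⟩
      refine ⟨S ∪ S', N + N', fun Q hQ => ?_⟩
      rw [Prod.snd_add, Prod.fst_add, map_add, Pi.add_apply, hS Q fun μ hμ =>
        (pow_dvd_pow _ (Nat.le_add_right _ _)).trans (hQ μ (Finset.mem_union_left _ hμ)),
        hS' Q fun μ hμ => (pow_dvd_pow _ (Nat.le_add_left _ _)).trans
          (hQ μ (Finset.mem_union_right _ hμ))]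
    · rintro c p _ ⟨S, N, hS⟩
      refine ⟨S, N, fun Q hQ => ?_⟩
      rw [Prod.smul_snd, Prod.smul_fst, map_smul, Pi.smul_apply, hS Q hQ]
  obtain ⟨S, N, hS⟩ := key _ (mem_PJ_span h)
  obtain ⟨Q, hQ⟩ := exists_crt S N (fun μ => C μ)
  have h1 := hS Q hQ
  rw [map_zero] at h1
  exact h1

end Pool.Agent.Lib.MP_666dc0_nt.DS
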