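import Pool.Agent.Lib.MP_666dc0_nt.DS.J1
import Pool.Agent.Lib.MP_666dc0_nt.Mg.G042

/-!
# The semisimple part of an invertible matrix
-/

open Polynomial

namespace Pool.Agent.Lib.MP_666dc0_nt.DS

open Pool.Agent.Lib.MP_666dc0_nt.IG

variable {Ω : Type} [Field Ω] {n : ℕ}

/-- A polynomial divisible by all `(X - μ) ^ N`, `μ ∈ Λ`, kills `X'`. -/
theorem aeval_of_dvd (X' : Matrix (Fin n) (Fin n) Ω) (Λ : Finset Ω) (N : ℕ)
    (hX : aeval X' ((∏ μ ∈ Λ, (X - C μ)) ^ N) = 0) (p : Polynomial Ω)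
    (hp : ∀ μ ∈ Λ, (X - C μ) ^ N ∣ p) : aeval X' p = 0 := by
  have h1 : (∏ μ ∈ Λ, (X - C μ)) ^ N ∣ p := by
    rw [← Finset.prod_pow]
    refine Finset.prod_dvd_of_coprime (fun i _ j _ hij => ?_) hp
    exact (isCoprime_X_sub_C_of_isUnit_sub (sub_ne_zero.2 hij).isUnit).pow
  obtain ⟨q, rfl⟩ := h1
  rw [map_mul, hX, zero_mul]

/-- The sequences of entries of the powers, and the entries of the semisimple part. -/
theorem ss_mem_PJ (X' : Matrix (Fin n) (Fin n) Ω) (Λ : Finset Ω) (h0 : (0 : Ω) ∉ Λ) (N : ℕ)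
    (hX : aeval X' ((∏ μ ∈ Λ, (X - C μ)) ^ N) = 0) (Q : Polynomial Ω)
    (hQ : ∀ μ ∈ Λ, (X - C μ) ^ N ∣ Q - C μ) (φ : Matrix (Fin n) (Fin n) Ω →ₗ[Ω] Ω) :
    ((fun a => φ (X' ^ a), φ (aeval X' Q)) : (ℕ → Ω) × Ω) ∈ PJ Ω := by
  classical
  choose q hq using fun μ => exists_crt Λ N (fun ν => if ν = μ then 1 else 0)
  have h1 : ∑ μ ∈ Λ, aeval X' (q μ) = 1 := by
    have h2 : aeval X' (∑ μ ∈ Λ, q μ - 1) = 0 := by
      refine aeval_of_dvd X' Λ N hX _ fun ν hν => ?_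
      have h3 : ∑ μ ∈ Λ, q μ - 1 = ∑ μ ∈ Λ, (q μ - if ν = μ then 1 else 0) := by
        rw [Finset.sum_sub_distrib, Finset.sum_ite_eq, if_pos hν]
      rw [h3]
      exact Finset.dvd_sum fun μ _ => hq μ ν hν
    rw [map_sub, map_one, map_sum, sub_eq_zero] at h2
    exact h2
  have h2 : ∀ μ ∈ Λ, aeval X' (Q * q μ) = μ • aeval X' (q μ) := by
    intro μ hμ
    have h3 : aeval X' (Q * q μ - C μ * q μ) = 0 := by
      refine aeval_of_dvd X' Λ N hX _ fun ν hν => ?_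
      have h4 : Q * q μ - C μ * q μ = (Q - C ν) * q μ + (C ν - C μ) * (q μ - if ν = μ then 1 else 0)
          + (C ν - C μ) * (if ν = μ then 1 else 0) := by ring
      rw [h4]
      refine dvd_add (dvd_add ((hQ ν hν).mul_right _) ((hq μ ν hν).mul_left _)) ?_
      split_ifs with h5
      · rw [h5, sub_self, zero_mul]
        exact dvd_zero _
      · rw [mul_zero]
        exact dvd_zero _
    rw [map_sub, map_mul _ (C μ), aeval_C, sub_eq_zero, ← Algebra.smul_def] at h3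
    exact h3
  have h3 : ∀ μ ∈ Λ, aeval X' ((X - C μ) ^ N * q μ) = 0 := by
    intro μ hμ
    refine aeval_of_dvd X' Λ N hX _ fun ν hν => ?_
    by_cases h4 : ν = μ
    · rw [h4]
      exact dvd_mul_right _ _
    · have h5 := hq μ ν hν
      rw [if_neg h4, sub_zero] at h5
      exact h5.mul_left _
  have h4 : ((fun a => φ (X' ^ a), φ (aeval X' Q)) : (ℕ → Ω) × Ω) =
      ∑ μ ∈ Λ, ((fun a => φ (X' ^ a * aeval X' (q μ)), μ * φ (aeval X' (q μ))) : (ℕ → Ω) × Ω) := by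
    refine Prod.ext ?_ ?_
    · rw [Prod.fst_sum]
      funext a
      rw [Finset.sum_apply]
      change φ (X' ^ a) = ∑ μ ∈ Λ, φ (X' ^ a * aeval X' (q μ))
      rw [← map_sum, ← Finset.mul_sum, h1, mul_one]
    · rw [Prod.snd_sum]
      change φ (aeval X' Q) = ∑ μ ∈ Λ, μ * φ (aeval X' (q μ))
      have h5 : aeval X' Q = ∑ μ ∈ Λ, μ • aeval X' (q μ) := by
        rw [← Finset.sum_congr rfl fun μ hμ => h2 μ hμ]
        simp only [map_mul]
        rw [← Finset.mul_sum, h1, mul_one]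
      rw [h5, map_sum]
      exact Finset.sum_congr rfl fun μ _ => by rw [map_smul, smul_eq_mul]
  rw [h4]
  refine Subalgebra.sum_mem _ fun μ hμ => Algebra.subset_adjoin ?_
  have hμ0 : μ ≠ 0 := fun h => h0 (h ▸ hμ)
  refine ⟨Units.mk0 μ hμ0, N, ?_, ?_⟩
  · change aeval (sh Ω) ((X - C μ) ^ N) (fun a => φ (X' ^ a * aeval X' (q μ))) = 0
    have h5 := aeval_sh_pow X' (φ ∘ₗ LinearMap.mulRight Ω (aeval X' (q μ))) ((X - C μ) ^ N)
    simp only [LinearMap.comp_apply, LinearMap.mulRight_apply] at h5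
    rw [h5]
    funext a
    rw [mul_assoc, ← map_mul, h3 μ hμ, mul_zero, map_zero, Pi.zero_apply]
  · change μ * φ (aeval X' (q μ)) = μ * φ (X' ^ 0 * aeval X' (q μ))
    rw [pow_zero, one_mul]

/-- Jordan decomposition of an invertible matrix. -/
theorem exists_ss_part [IsAlgClosed Ω] [CharZero Ω] (X' X'' : Matrix (Fin n) (Fin n) Ω)
    (h12 : X' * X'' = 1) :
    ∃ Q : Polynomial Ω, DG (aeval X' Q) ∧ IsNilpotent (X' - aeval X' Q) ∧
      ∀ φ : Matrix (Fin n) (Fin n) Ω →ₗ[Ω] Ω,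
        ((fun a => φ (X' ^ a), φ (aeval X' Q)) : (ℕ → Ω) × Ω) ∈ PJ Ω := by
  classical
  set Λ : Finset Ω := X'.charpoly.roots.toFinset with hΛ
  set N : ℕ := Multiset.card X'.charpoly.roots with hN
  have h0 : (0 : Ω) ∉ Λ := by
    intro h
    rw [hΛ, Multiset.mem_toFinset, mem_roots (Matrix.charpoly_monic X').ne_zero, IsRoot.def,
      Matrix.eval_charpoly, Matrix.scalar_apply] at h
    have h1 : (Matrix.diagonal (fun _ : Fin n => (0 : Ω)) - X') = -X' := by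
      rw [show (Matrix.diagonal fun _ : Fin n => (0 : Ω)) = 0 from Matrix.diagonal_zero, zero_sub]
    rw [h1, Matrix.det_neg, mul_eq_zero] at h
    have h2 : X'.det ≠ 0 := by
      intro h3
      have h4 := congrArg Matrix.det h12
      rw [Matrix.det_mul, h3, zero_mul, Matrix.det_one] at h4
      exact zero_ne_one h4
    rcases h with h | h
    · exact (pow_ne_zero _ (neg_ne_zero.2 one_ne_zero)) h
    · exact h2 h
  have hX : aeval X' ((∏ μ ∈ Λ, (X - C μ)) ^ N) = 0 := by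
    have h1 : X'.charpoly ∣ (∏ μ ∈ Λ, (X - C μ)) ^ N := by
      have h2 := (IsAlgClosed.splits X'.charpoly).eq_prod_roots
      rw [(Matrix.charpoly_monic X').leadingCoeff, C_1, one_mul] at h2
      rw [h2]
      have h3 : (∏ μ ∈ Λ, (X - C μ) : Polynomial Ω) ^ N =
          (Multiset.map (fun _ => ∏ μ ∈ Λ, (X - C μ)) X'.charpoly.roots).prod := by
        rw [Multiset.map_const', Multiset.prod_replicate]
      rw [h3]
      refine Multiset.prod_dvd_prod_of_dvd _ _ fun μ hμ => ?_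
      exact Finset.dvd_prod_of_mem _ (Multiset.mem_toFinset.2 hμ)
    obtain ⟨q, hq⟩ := h1
    rw [hq, map_mul, Matrix.aeval_self_charpoly, zero_mul]
  obtain ⟨Q, hQ⟩ := exists_crt Λ N (fun μ => C μ)
  refine ⟨Q, ?_, ?_, fun φ => ss_mem_PJ X' Λ h0 N hX Q hQ φ⟩
  · have h1 : aeval X' (∏ μ ∈ Λ, (Q - C μ)) = 0 :=
      aeval_of_dvd X' Λ N hX _ fun μ hμ => (hQ μ hμ).trans (Finset.dvd_prod_of_mem _ hμ)
    have h2 : aeval (aeval X' Q) (∏ μ ∈ Λ, (X - C μ)) = 0 := by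
      rw [← h1, ← Polynomial.aeval_comp, Polynomial.prod_comp]
      congr 1
      refine Finset.prod_congr rfl fun μ _ => ?_
      rw [sub_comp, X_comp, C_comp]
    let s : Finset Ωˣ := Λ.attach.image fun μ => Units.mk0 μ.1 fun h => h0 (h ▸ μ.2)
    refine ⟨s, ?_⟩
    rw [← h2]
    congr 1
    rw [Finset.prod_image]
    · exact Finset.prod_attach Λ (fun μ => (X - C μ : Polynomial Ω))
    · intro μ _ ν _ h
      have h3 := congrArg (fun u : Ωˣ => (u : Ω)) h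
      exact Subtype.ext h3
  · refine ⟨N, ?_⟩
    have h1 : aeval X' ((X - Q) ^ N) = 0 := by
      refine aeval_of_dvd X' Λ N hX _ fun μ hμ => ?_
      rcases Nat.eq_zero_or_pos N with h2 | h2
      · rw [h2, pow_zero]
        exact one_dvd _
      · refine pow_dvd_pow_of_dvd ?_ N
        have h3 : (X - C μ) ∣ Q - C μ := (dvd_pow_self _ h2.ne').trans (hQ μ hμ)
        have h4 : (X - Q : Polynomial Ω) = (X - C μ) - (Q - C μ) := by ring
        rw [h4]
        exact dvd_sub (dvd_refl _) h3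
    rw [map_pow, map_sub, aeval_X] at h1
    exact h1

/-- The semisimple part of a diagonalisable matrix is the matrix itself. -/
theorem DG_mem_PJ (X' : Matrix (Fin n) (Fin n) Ω) (h : DG X')
    (φ : Matrix (Fin n) (Fin n) Ω →ₗ[Ω] Ω) :
    ((fun a => φ (X' ^ a), φ X') : (ℕ → Ω) × Ω) ∈ PJ Ω := by
  classical
  obtain ⟨s, hs⟩ := h
  have h1 : ∏ μ ∈ s.image (fun μ : Ωˣ => (μ : Ω)), (X - C μ : Polynomial Ω) =
      ∏ μ ∈ s, (X - C (μ : Ω)) := by
    rw [Finset.prod_image]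
    intro μ _ ν _ h
    exact Units.ext h
  have h2 := ss_mem_PJ X' (s.image fun μ : Ωˣ => (μ : Ω)) (by
    intro h3
    obtain ⟨μ, _, hμ⟩ := Finset.mem_image.1 h3
    exact μ.ne_zero hμ) 1 (by rw [h1, pow_one]; exact hs) X (fun μ _ => by rw [pow_one]) φ
  rwa [aeval_X] at h2

end Pool.Agent.Lib.MP_666dc0_nt.DS
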