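import Pool.Agent.Lib.MP_666dc0_nt.DS.J2
import Pool.Agent.Lib.MP_666dc0_nt.LV.H0

/-!
# Jordan decomposition in the L-group
-/

open Polynomial

namespace Pool.Agent.Lib.MP_666dc0_nt.DS

open Pool.Agent.Lib.MP_666dc0_nt.IG Pool.Agent.Lib.MP_666dc0_nt.LV

variable {O : Type} [CommRing O] [HopfAlgebra ℚ O] {Γ : Type} [Group Γ] {A : HopfAction Γ O}
  {Ω : Type} [Field Ω] [Algebra ℚ Ω]

theorem PJ_unique {F : ℕ → Ω} {z z' : Ω} (h : ((F, z) : (ℕ → Ω) × Ω) ∈ PJ Ω)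
    (h' : ((F, z') : (ℕ → Ω) × Ω) ∈ PJ Ω) : z = z' := by
  have h1 := Subalgebra.sub_mem _ h h'
  have h2 : ((F, z) : (ℕ → Ω) × Ω) - (F, z') = (0, z - z') := by
    rw [Prod.mk_sub_mk, sub_self]
  rw [h2] at h1
  exact sub_eq_zero.1 (PJ_functional h1)

/-- Products of matrices of pairs. -/
theorem PJ_matrix_mul {n : ℕ} {M M' : ℕ → Matrix (Fin n) (Fin n) Ω}
    {M₀ M₀' : Matrix (Fin n) (Fin n) Ω}
    (h : ∀ i j, ((fun a => M a i j, M₀ i j) : (ℕ → Ω) × Ω) ∈ PJ Ω)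
    (h' : ∀ i j, ((fun a => M' a i j, M₀' i j) : (ℕ → Ω) × Ω) ∈ PJ Ω) (i j : Fin n) :
    ((fun a => (M a * M' a) i j, (M₀ * M₀') i j) : (ℕ → Ω) × Ω) ∈ PJ Ω := by
  have h1 : ((fun a => (M a * M' a) i j, (M₀ * M₀') i j) : (ℕ → Ω) × Ω) =
      ∑ k, ((fun a => M a i k, M₀ i k) : (ℕ → Ω) × Ω) * (fun a => M' a k j, M₀' k j) := by
    refine Prod.ext ?_ ?_
    · rw [Prod.fst_sum]
      funext a
      rw [Finset.sum_apply]
      rfl
    · rw [Prod.snd_sum]
      rfl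
  rw [h1]
  exact Subalgebra.sum_mem _ fun k _ => Subalgebra.mul_mem _ (h i k) (h' k j)

/-- The entries of `gm` of the powers, and the point with these semisimple parts. -/
theorem PJ_gm [IsAlgClosed Ω] (hfin : (Set.range A.act).Finite) (x : A.LGroup Ω) {n : ℕ}
    (ρ : MatRep A n) : ∃ Q : Polynomial Ω, DG (aeval (ρ.ev Ω x) Q) ∧
      IsNilpotent (ρ.ev Ω x - aeval (ρ.ev Ω x) Q) ∧
      ∀ i j, ((fun a => (x ^ a).left.hom (ρ.a i j),
        (aeval (ρ.ev Ω x) Q * ρ.pm Ω x.right⁻¹) i j) : (ℕ → Ω) × Ω) ∈ PJ Ω := by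
  have hch : CharZero Ω := algebraRat.charZero Ω
  obtain ⟨Q, h1, h2, h3⟩ := exists_ss_part (ρ.ev Ω x) (ρ.ev Ω x⁻¹) (by
    rw [← map_mul, mul_inv_cancel, map_one])
  refine ⟨Q, h1, h2, fun i j => ?_⟩
  obtain ⟨m, hm, hact⟩ := exists_pow_act hfin x.right⁻¹
  have hP1 : ρ.pm Ω x.right⁻¹ * ρ.pm Ω x.right = 1 := by
    rw [← map_mul, inv_mul_cancel, map_one]
  have hP2 : ρ.pm Ω x.right * ρ.pm Ω x.right⁻¹ = 1 := by
    rw [← map_mul, mul_inv_cancel, map_one]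
  have hPm : ρ.pm Ω x.right⁻¹ ^ m = 1 := by
    rw [← map_pow, MatRep.pm, MonoidHom.comp_apply, ρ.P_eq, map_one]
    rw [map_pow, hact]
  have hDG : DG (ρ.pm Ω x.right⁻¹) := by
    refine DG_of_squarefree hP1 hP2 (p := X ^ m - 1) ?_ ?_
    · have h4 : (X ^ m - 1 : Polynomial Ω).Separable := by
        rw [← C_1]
        exact separable_X_pow_sub_C (1 : Ω) (by exact_mod_cast hm.ne') one_ne_zero
      exact h4.squarefree
    · rw [map_sub, map_pow, aeval_X, map_one, hPm, sub_self]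
  have hgm : ∀ a : ℕ, ρ.gm (x ^ a).left = (ρ.ev Ω x) ^ a * (ρ.pm Ω x.right⁻¹) ^ a := by
    intro a
    have h4 : ρ.ev Ω (x ^ a) = ρ.gm (x ^ a).left * ρ.pm Ω (x ^ a).right := ρ.ev_apply _
    rw [map_pow, HopfAction.pow_right] at h4
    rw [h4, mul_assoc, ← map_pow, ← map_mul]
    have h5 : x.right ^ a * x.right⁻¹ ^ a = 1 := by rw [inv_pow, mul_inv_cancel]
    rw [h5, map_one, mul_one]
  have h4 := PJ_matrix_mul (M := fun a => (ρ.ev Ω x) ^ a) (M' := fun a => (ρ.pm Ω x.right⁻¹) ^ a)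
    (M₀ := aeval (ρ.ev Ω x) Q) (M₀' := ρ.pm Ω x.right⁻¹)
    (fun i j => h3 (Matrix.entryLinearMap Ω Ω i j))
    (fun i j => DG_mem_PJ _ hDG (Matrix.entryLinearMap Ω Ω i j)) i j
  have h5 : (fun a => (x ^ a).left.hom (ρ.a i j)) =
      fun a : ℕ => ((ρ.ev Ω x) ^ a * (ρ.pm Ω x.right⁻¹) ^ a) i j := by
    funext a
    rw [← hgm]
    rfl
  rw [h5]
  exact h4

/-- Jordan decomposition in `ᴸG(Ω)`: the semisimple part `y` of `x`. -/
theorem exists_jordan [IsAlgClosed Ω] (hfin : (Set.range A.act).Finite) (x : A.LGroup Ω) :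
    ∃ y : A.LGroup Ω, y.right = x.right ∧ ∀ (n : ℕ) (ρ : MatRep A n), DG (ρ.ev Ω y) ∧
      (∃ Q : Polynomial Ω, ρ.ev Ω y = aeval (ρ.ev Ω x) Q) ∧
      IsNilpotent (ρ.ev Ω x - ρ.ev Ω y) := by
  classical
  have hex : ∀ f : O, ∃ z : Ω, ((fun a => (x ^ a).left.hom f, z) : (ℕ → Ω) × Ω) ∈ PJ Ω := by
    intro f
    obtain ⟨Φ, hΦ1, hΦ2, hΦ3⟩ := exists_stable_of_finite hfin {f} (Set.finite_singleton f)
    obtain ⟨n, ρ, hρ⟩ := exists_matRep A hΦ1 hΦ3
    obtain ⟨Q, -, -, hQ⟩ := PJ_gm hfin x ρ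
    have h1 : f ∈ Submodule.span ℚ (Set.range fun ij : Fin n × Fin n => ρ.a ij.1 ij.2) :=
      hρ f (hΦ2 rfl)
    refine Submodule.span_induction (p := fun f _ =>
      ∃ z : Ω, ((fun a => (x ^ a).left.hom f, z) : (ℕ → Ω) × Ω) ∈ PJ Ω) ?_ ?_ ?_ ?_ h1
    · rintro _ ⟨ij, rfl⟩
      exact ⟨_, hQ ij.1 ij.2⟩
    · refine ⟨0, ?_⟩
      have h2 : ((fun a => (x ^ a).left.hom 0, 0) : (ℕ → Ω) × Ω) = 0 := by
        refine Prod.ext ?_ rfl
        funext a
        exact map_zero _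
      rw [h2]
      exact Subalgebra.zero_mem _
    · rintro f g _ _ ⟨z, hz⟩ ⟨z', hz'⟩
      refine ⟨z + z', ?_⟩
      have h2 : ((fun a => (x ^ a).left.hom (f + g), z + z') : (ℕ → Ω) × Ω) =
          (fun a => (x ^ a).left.hom f, z) + (fun a => (x ^ a).left.hom g, z') := by
        refine Prod.ext ?_ rfl
        funext a
        exact map_add _ _ _
      rw [h2]
      exact Subalgebra.add_mem _ hz hz'
    · rintro c f _ ⟨z, hz⟩
      refine ⟨algebraMap ℚ Ω c * z, ?_⟩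
      have h2 : ((fun a => (x ^ a).left.hom (c • f), algebraMap ℚ Ω c * z) : (ℕ → Ω) × Ω) =
          algebraMap ℚ Ω c • (fun a => (x ^ a).left.hom f, z) := by
        refine Prod.ext ?_ rfl
        funext a
        change (x ^ a).left.hom (c • f) = algebraMap ℚ Ω c * (x ^ a).left.hom f
        rw [map_smul, Algebra.smul_def]
      rw [h2]
      exact Subalgebra.smul_mem _ hz _
  choose z hz using hex
  have huniq : ∀ (f : O) (w : Ω), ((fun a => (x ^ a).left.hom f, w) : (ℕ → Ω) × Ω) ∈ PJ Ω →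
      z f = w := fun f w hw => PJ_unique (hz f) hw
  let g : O →ₐ[ℚ] Ω :=
    { toFun := z
      map_one' := huniq 1 1 (by
        have h2 : ((fun a => (x ^ a).left.hom 1, 1) : (ℕ → Ω) × Ω) = 1 := by
          refine Prod.ext ?_ rfl
          funext a
          exact map_one _
        rw [h2]
        exact Subalgebra.one_mem _)
      map_mul' := fun f g => huniq (f * g) (z f * z g) (by
        have h2 : ((fun a => (x ^ a).left.hom (f * g), z f * z g) : (ℕ → Ω) × Ω) =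
            (fun a => (x ^ a).left.hom f, z f) * (fun a => (x ^ a).left.hom g, z g) := by
          refine Prod.ext ?_ rfl
          funext a
          exact map_mul _ _ _
        rw [h2]
        exact Subalgebra.mul_mem _ (hz f) (hz g))
      map_zero' := huniq 0 0 (by
        have h2 : ((fun a => (x ^ a).left.hom 0, 0) : (ℕ → Ω) × Ω) = 0 := by
          refine Prod.ext ?_ rfl
          funext a
          exact map_zero _
        rw [h2]
        exact Subalgebra.zero_mem _)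
      map_add' := fun f g => huniq (f + g) (z f + z g) (by
        have h2 : ((fun a => (x ^ a).left.hom (f + g), z f + z g) : (ℕ → Ω) × Ω) =
            (fun a => (x ^ a).left.hom f, z f) + (fun a => (x ^ a).left.hom g, z g) := by
          refine Prod.ext ?_ rfl
          funext a
          exact map_add _ _ _
        rw [h2]
        exact Subalgebra.add_mem _ (hz f) (hz g))
      commutes' := fun c => huniq (algebraMap ℚ O c) (algebraMap ℚ Ω c) (by
        have h2 : ((fun a => (x ^ a).left.hom (algebraMap ℚ O c), algebraMap ℚ Ω c) :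
            (ℕ → Ω) × Ω) = algebraMap Ω ((ℕ → Ω) × Ω) (algebraMap ℚ Ω c) := by
          refine Prod.ext ?_ rfl
          funext a
          exact AlgHom.commutes _ _
        rw [h2]
        exact Subalgebra.algebraMap_mem _ _) }
  refine ⟨⟨⟨g⟩, x.right⟩, rfl, fun n ρ => ?_⟩
  obtain ⟨Q, hQ1, hQ2, hQ⟩ := PJ_gm hfin x ρ
  have hev : ρ.ev Ω (⟨⟨g⟩, x.right⟩ : A.LGroup Ω) = aeval (ρ.ev Ω x) Q := by
    rw [MatRep.ev_apply]
    have h1 : ρ.gm (⟨g⟩ : Pts O Ω) = aeval (ρ.ev Ω x) Q * ρ.pm Ω x.right⁻¹ := by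
      ext i j
      exact huniq _ _ (hQ i j)
    rw [h1, mul_assoc, ← map_mul, inv_mul_cancel, map_one, mul_one]
  rw [hev]
  exact ⟨hQ1, ⟨Q, rfl⟩, hQ2⟩

end Pool.Agent.Lib.MP_666dc0_nt.DS
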