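import Pool.Agent.Lib.MP_666dc0_nt.RepEval

/-!
# Averaging
-/

open TensorProduct Coalgebra
open scoped TensorProduct

namespace Pool.Agent.Lib.MP_666dc0_nt.DS

variable {O : Type} [CommRing O] [HopfAlgebra ℚ O] {Γ : Type} [Group Γ] {A : HopfAction Γ O}
  {n : ℕ}

/-- The matrix `σ(y)⁻¹ C y`. -/
noncomputable def avgM (ρ : MatRep A n) (σ : Γ) (C : Matrix (Fin n) (Fin n) ℚ) {R : Type}
    [CommRing R] [Algebra ℚ R] (y : Pts O R) : Matrix (Fin n) (Fin n) R :=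
  ρ.gm (A.onPts R σ y)⁻¹ * C.map (algebraMap ℚ R) * ρ.gm y

theorem avgM_map (ρ : MatRep A n) (σ : Γ) (C : Matrix (Fin n) (Fin n) ℚ) {R S : Type}
    [CommRing R] [Algebra ℚ R] [CommRing S] [Algebra ℚ S] (ψ : R →ₐ[ℚ] S) (y : Pts O R) :
    (avgM ρ σ C y).map ψ = avgM ρ σ C (Pts.map ψ y) := by
  have h1 : ∀ g : Pts O R, (ρ.gm g).map ψ = ρ.gm (Pts.map ψ g) := fun g => rfl
  have h2 : (C.map (algebraMap ℚ R)).map ψ = C.map (algebraMap ℚ S) := by
    ext i j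
    exact ψ.commutes _
  rw [avgM, avgM, Matrix.map_mul, Matrix.map_mul, h1, h1, h2, map_inv, A.onPts_map]

theorem avgM_mul (ρ : MatRep A n) (σ : Γ) (C : Matrix (Fin n) (Fin n) ℚ) {R : Type}
    [CommRing R] [Algebra ℚ R] (y z : Pts O R) :
    avgM ρ σ C (y * z) = ρ.gm (A.onPts R σ z)⁻¹ * avgM ρ σ C y * ρ.gm z := by
  rw [avgM, avgM, map_mul, mul_inv_rev, ρ.gm_mul, ρ.gm_mul]
  simp only [mul_assoc]

theorem gm_mul_gm_inv (ρ : MatRep A n) {R : Type} [CommRing R] [Algebra ℚ R] (y : Pts O R) :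
    ρ.gm y * ρ.gm y⁻¹ = 1 := by rw [← ρ.gm_mul, mul_inv_cancel, ρ.gm_one]

/-- Every invariant function is the trace of `ρ(g) C` with an intertwining matrix `C`. -/
theorem exists_avg (hO : LinearlyReductive O) (ρ : MatRep A n) (σ : Γ) {f : O}
    (hf : f ∈ A.inv σ) (C : Matrix (Fin n) (Fin n) ℚ) (hC : f = ∑ i, ∑ j, C j i • ρ.a i j) :
    ∃ C' : Matrix (Fin n) (Fin n) ℚ, f = ∑ i, ∑ j, C' j i • ρ.a i j ∧
      ∀ (R : Type) [CommRing R] [Algebra ℚ R] (y : Pts O R),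
        C'.map (algebraMap ℚ R) * ρ.gm y = ρ.gm (A.onPts R σ y) * C'.map (algebraMap ℚ R) := by
  obtain ⟨I, hI1, hI⟩ := hO
  obtain ⟨M, hM⟩ : ∃ M : Matrix (Fin n) (Fin n) O, M = avgM ρ σ C (Pts.univ O) := ⟨_, rfl⟩
  have hMy : ∀ (R : Type) [CommRing R] [Algebra ℚ R] (y : Pts O R),
      M.map y.hom = avgM ρ σ C y := by
    intro R _ _ y
    rw [hM, avgM_map, Pts.map_univ]
  let u₁ : Pts O (O ⊗[ℚ] O) := ⟨Algebra.TensorProduct.includeLeft⟩
  let u₂ : Pts O (O ⊗[ℚ] O) := ⟨Algebra.TensorProduct.includeRight⟩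
  have hu : ∀ g : O, (u₁ * u₂).hom g = comul (R := ℚ) g := by
    intro g
    rw [Pts.mul_hom_apply]
    have h1 : Algebra.TensorProduct.lift u₁.hom u₂.hom (fun _ _ => Commute.all _ _) =
        AlgHom.id ℚ (O ⊗[ℚ] O) := by
      ext x
      · simp [u₁]
      · simp [u₂]
    rw [h1]
    rfl
  refine ⟨Matrix.of fun i j => I (M i j), ?_, ?_⟩
  · have h1 := hf (O ⊗[ℚ] O) u₂ u₁
    have h2 : ∀ z : Pts O (O ⊗[ℚ] O), z.hom f = (ρ.gm z * C.map (algebraMap ℚ (O ⊗[ℚ] O))).trace := by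
      intro z
      rw [hC, map_sum, Matrix.trace]
      refine Finset.sum_congr rfl fun i _ => ?_
      rw [map_sum, Matrix.diag_apply, Matrix.mul_apply]
      refine Finset.sum_congr rfl fun j _ => ?_
      rw [map_smul, Algebra.smul_def, mul_comm]
      rfl
    rw [h2, ρ.gm_mul, ρ.gm_mul] at h1
    have h3 : (ρ.gm u₂ * ρ.gm u₁ * ρ.gm (A.onPts (O ⊗[ℚ] O) σ u₂)⁻¹ *
        C.map (algebraMap ℚ (O ⊗[ℚ] O))).trace = (ρ.gm u₁ * M.map u₂.hom).trace := by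
      rw [hMy, avgM, mul_assoc, mul_assoc, Matrix.trace_mul_comm]
      simp only [mul_assoc]
    rw [h3] at h1
    have h4 : (ρ.gm u₁ * M.map u₂.hom).trace = ∑ i, ∑ j, ρ.a i j ⊗ₜ[ℚ] M j i := by
      rw [Matrix.trace]
      refine Finset.sum_congr rfl fun i _ => ?_
      rw [Matrix.diag_apply, Matrix.mul_apply]
      refine Finset.sum_congr rfl fun j _ => ?_
      change (ρ.a i j ⊗ₜ[ℚ] (1 : O)) * ((1 : O) ⊗ₜ[ℚ] M j i) = _
      rw [Algebra.TensorProduct.tmul_mul_tmul, mul_one, one_mul]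
    rw [h4] at h1
    have h5 := congrArg (fun z => TensorProduct.rid ℚ O (LinearMap.lTensor O I z)) h1
    have h6 : u₁.hom f = f ⊗ₜ[ℚ] (1 : O) := rfl
    simp only [h6, map_sum, LinearMap.lTensor_tmul, TensorProduct.rid_tmul, hI1, one_smul] at h5
    exact h5.symm
  · intro R _ _ y
    let Ψ : O ⊗[ℚ] O →ₗ[ℚ] R := (TensorProduct.lid ℚ R).toLinearMap ∘ₗ
      TensorProduct.map I y.hom.toLinearMap
    have hΨ : ∀ g : O, Ψ (comul (R := ℚ) g) = algebraMap ℚ R (I g) := by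
      intro g
      have h1 := congrArg y.hom (hI g)
      rw [AlgHom.commutes] at h1
      rw [← h1]
      generalize (comul (R := ℚ) g) = z
      induction z using TensorProduct.induction_on with
      | zero => simp
      | tmul a b => simp [Ψ]
      | add a b ha hb => simp only [map_add, ha, hb]
    have h1 : M.map (u₁ * u₂).hom = ρ.gm (A.onPts (O ⊗[ℚ] O) σ u₂)⁻¹ * M.map u₁.hom * ρ.gm u₂ := by
      rw [hMy, hMy, avgM_mul]
    have h2 : ∀ i j, comul (R := ℚ) (M i j) = ∑ l, ∑ k, M k l ⊗ₜ[ℚ]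
        ((ρ.gm (A.onPts O σ (Pts.univ O))⁻¹) i k * ρ.a l j) := by
      intro i j
      have h3 := congrFun (congrFun h1 i) j
      rw [Matrix.map_apply, hu, Matrix.mul_apply] at h3
      rw [h3]
      refine Finset.sum_congr rfl fun l _ => ?_
      rw [Matrix.mul_apply, Finset.sum_mul]
      refine Finset.sum_congr rfl fun k _ => ?_
      have h4 : ρ.gm (A.onPts (O ⊗[ℚ] O) σ u₂)⁻¹ i k =
          (1 : O) ⊗ₜ[ℚ] (ρ.gm (A.onPts O σ (Pts.univ O))⁻¹ i k) := by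
        have h5 : (A.onPts (O ⊗[ℚ] O) σ u₂)⁻¹ =
            Pts.map (Algebra.TensorProduct.includeRight : O →ₐ[ℚ] O ⊗[ℚ] O)
              (A.onPts O σ (Pts.univ O))⁻¹ := by
          rw [map_inv, A.onPts_map]
          rfl
        rw [h5]
        rfl
      rw [h4]
      change ((1 : O) ⊗ₜ[ℚ] _) * (M k l ⊗ₜ[ℚ] (1 : O)) * ((1 : O) ⊗ₜ[ℚ] ρ.a l j) = _
      rw [Algebra.TensorProduct.tmul_mul_tmul, Algebra.TensorProduct.tmul_mul_tmul, one_mul,
        mul_one, mul_one]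
    obtain ⟨C', hC'⟩ : ∃ C' : Matrix (Fin n) (Fin n) ℚ, C' = Matrix.of fun i j => I (M i j) :=
      ⟨_, rfl⟩
    have h3 : C'.map (algebraMap ℚ R) =
        ρ.gm (A.onPts R σ y)⁻¹ * C'.map (algebraMap ℚ R) * ρ.gm y := by
      ext i j
      rw [Matrix.map_apply, hC', Matrix.of_apply, ← hΨ, h2, map_sum, Matrix.mul_apply]
      refine Finset.sum_congr rfl fun l _ => ?_
      rw [map_sum, Matrix.mul_apply, Finset.sum_mul]
      refine Finset.sum_congr rfl fun k _ => ?_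
      have h5 : ρ.gm (A.onPts R σ y)⁻¹ i k = y.hom (ρ.gm (A.onPts O σ (Pts.univ O))⁻¹ i k) := by
        have h6 : (A.onPts R σ y)⁻¹ = Pts.map y.hom (A.onPts O σ (Pts.univ O))⁻¹ := by
          rw [map_inv, A.onPts_map, Pts.map_univ]
        rw [h6]
        rfl
      change I (M k l) • y.hom (_ * _) = _
      rw [map_mul, h5, Algebra.smul_def]
      change _ = _ * algebraMap ℚ R (I (M k l)) * y.hom (ρ.a l j)
      ring
    rw [← hC']
    conv_rhs => rw [h3]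
    rw [← mul_assoc, ← mul_assoc, gm_mul_gm_inv, one_mul]

end Pool.Agent.Lib.MP_666dc0_nt.DS
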