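import Pool.Agent.Lib.MP_666dc0_nt.DS.J4
import Pool.Agent.Lib.MP_666dc0_nt.LV.H0

/-!
# The invariants of the semisimple part
-/

open Polynomial

namespace Pool.Agent.Lib.MP_666dc0_nt.DS

open Pool.Agent.Lib.MP_666dc0_nt.IG Pool.Agent.Lib.MP_666dc0_nt.LV

variable {O : Type} [CommRing O] [HopfAlgebra ℚ O] {Γ : Type} [Group Γ] {A : HopfAction Γ O}
  {Ω : Type} [Field Ω] [Algebra ℚ Ω]

/-- An element and its semisimple part have the same invariants. -/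
theorem jordan_inv (hO : LinearlyReductive O) (hfin : (Set.range A.act).Finite)
    {x y : A.LGroup Ω} (hxy : y.right = x.right)
    (h : ∀ (n : ℕ) (ρ : MatRep A n), (∃ Q : Polynomial Ω, ρ.ev Ω y = aeval (ρ.ev Ω x) Q) ∧
      IsNilpotent (ρ.ev Ω x - ρ.ev Ω y)) :
    ∀ f ∈ A.inv x.right, x.left.hom f = y.left.hom f := by
  intro f hf
  obtain ⟨Φ, hΦ1, hΦ2, hΦ3⟩ := exists_stable_of_finite hfin {f} (Set.finite_singleton f)
  obtain ⟨n, ρ, hρ⟩ := exists_matRep A hΦ1 hΦ3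
  have h1 : f ∈ Submodule.span ℚ (Set.range fun ij : Fin n × Fin n => ρ.a ij.1 ij.2) :=
    hρ f (hΦ2 rfl)
  obtain ⟨c, hc⟩ := (Submodule.mem_span_range_iff_exists_fun ℚ).1 h1
  obtain ⟨C, hC, hCc⟩ := exists_avg hO ρ x.right hf (Matrix.of fun j i => c (i, j)) (by
    rw [← hc, Fintype.sum_prod_type]
    rfl)
  obtain ⟨⟨Q, hQ⟩, hnil⟩ := h n ρ
  set σ := x.right with hσ
  have hval : ∀ z : A.LGroup Ω, z.right = σ → z.left.hom f =
      (ρ.ev Ω z * (ρ.pm Ω σ⁻¹ * C.map (algebraMap ℚ Ω))).trace := by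
    intro z hz
    have h2 : z.left.hom f = (ρ.gm z.left * C.map (algebraMap ℚ Ω)).trace := by
      conv_lhs => rw [hC]
      rw [map_sum, Matrix.trace]
      refine Finset.sum_congr rfl fun i _ => ?_
      rw [map_sum, Matrix.diag_apply, Matrix.mul_apply]
      refine Finset.sum_congr rfl fun j _ => ?_
      rw [map_smul, Algebra.smul_def, mul_comm]
      rfl
    rw [h2, MatRep.ev_apply, hz, ← mul_assoc, mul_assoc (ρ.gm z.left), ← map_mul, mul_inv_cancel,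
      map_one, mul_one]
  have hcomm : ∀ u : Pts O Ω, Commute (ρ.pm Ω σ⁻¹ * C.map (algebraMap ℚ Ω)) (ρ.gm u) := by
    intro u
    change ρ.pm Ω σ⁻¹ * C.map (algebraMap ℚ Ω) * ρ.gm u =
      ρ.gm u * (ρ.pm Ω σ⁻¹ * C.map (algebraMap ℚ Ω))
    rw [mul_assoc, hCc Ω u, ← mul_assoc, ρ.pm_mul_gm, ← mul_assoc]
    congr 3
    rw [← MulAut.mul_apply, ← map_mul, inv_mul_cancel, map_one, MulAut.one_apply]
  have hu : ρ.ev Ω (y⁻¹ * x) = ρ.gm (y⁻¹ * x).left := by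
    have h2 : (y⁻¹ * x).right = 1 := by
      rw [SemidirectProduct.mul_right, SemidirectProduct.inv_right, hxy, inv_mul_cancel]
    rw [MatRep.ev_apply, h2, map_one, mul_one]
  obtain ⟨U, hU⟩ : ∃ U, U = ρ.ev Ω (y⁻¹ * x) := ⟨_, rfl⟩
  obtain ⟨S, hS⟩ : ∃ S, S = ρ.ev Ω y := ⟨_, rfl⟩
  obtain ⟨W, hW⟩ : ∃ W, W = ρ.pm Ω σ⁻¹ * C.map (algebraMap ℚ Ω) := ⟨_, rfl⟩
  have hWU : Commute W U := by
    rw [hW, hU, hu]
    exact hcomm _
  have hSU : S * U = ρ.ev Ω x := by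
    rw [hS, hU, ← map_mul, mul_inv_cancel_left]
  have hS' : ρ.ev Ω y⁻¹ * S = 1 := by rw [hS, ← map_mul, inv_mul_cancel, map_one]
  have hS'' : S * ρ.ev Ω y⁻¹ = 1 := by rw [hS, ← map_mul, mul_inv_cancel, map_one]
  have hXS : Commute (ρ.ev Ω x) S := by
    rw [hS, hQ]
    have h5 := Commute.map (Commute.all Polynomial.X Q) (Polynomial.aeval (R := Ω) (ρ.ev Ω x))
    rwa [Polynomial.aeval_X] at h5
  have hUS : Commute U S := by
    have h2 : S * (U * S) = S * (S * U) := by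
      rw [← mul_assoc, hSU]
      exact hXS
    calc U * S = ρ.ev Ω y⁻¹ * S * (U * S) := by rw [hS', one_mul]
      _ = ρ.ev Ω y⁻¹ * (S * (U * S)) := by rw [mul_assoc]
      _ = ρ.ev Ω y⁻¹ * S * (S * U) := by rw [h2, ← mul_assoc]
      _ = S * U := by rw [hS', one_mul]
  have hX : ρ.ev Ω x - S = S * (U - 1) := by rw [mul_sub, hSU, mul_one]
  have hU1 : IsNilpotent (U - 1) := by
    have h2 : U - 1 = ρ.ev Ω y⁻¹ * (ρ.ev Ω x - S) := by
      rw [hX, ← mul_assoc, hS', one_mul]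
    have h3 : Commute (ρ.ev Ω y⁻¹) (ρ.ev Ω x - S) := by
      have h4 : Commute (ρ.ev Ω y⁻¹) S := hS'.trans hS''.symm
      have h5 : Commute (ρ.ev Ω y⁻¹) (ρ.ev Ω x) := by
        change ρ.ev Ω y⁻¹ * ρ.ev Ω x = ρ.ev Ω x * ρ.ev Ω y⁻¹
        calc ρ.ev Ω y⁻¹ * ρ.ev Ω x = ρ.ev Ω y⁻¹ * (ρ.ev Ω x * S) * ρ.ev Ω y⁻¹ := by
              rw [mul_assoc, mul_assoc, hS'', mul_one]
          _ = ρ.ev Ω y⁻¹ * (S * ρ.ev Ω x) * ρ.ev Ω y⁻¹ := by rw [hXS.eq]
          _ = ρ.ev Ω x * ρ.ev Ω y⁻¹ := by rw [← mul_assoc, hS', one_mul]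
      exact h5.sub_right h4
    rw [h2]
    refine h3.isNilpotent_mul_left ?_
    rw [hS]
    exact hnil
  have hUW : Commute (S * W) (U - 1) :=
    ((hUS.symm).mul_left hWU).sub_right (Commute.one_right _)
  have hWU1 : Commute W (U - 1) := hWU.sub_right (Commute.one_right _)
  have key : IsNilpotent ((ρ.ev Ω x - S) * W) := by
    have h2 : (ρ.ev Ω x - S) * W = (S * W) * (U - 1) := by
      rw [hX, mul_assoc, mul_assoc, hWU1.eq]
    rw [h2]
    exact hUW.isNilpotent_mul_left hU1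
  have htr := (Matrix.isNilpotent_trace_of_isNilpotent key).eq_zero
  rw [sub_mul, Matrix.trace_sub, sub_eq_zero] at htr
  rw [hval x rfl, hval y hxy, ← hW, htr, hS]

end Pool.Agent.Lib.MP_666dc0_nt.DS
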