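import Pool.Agent.Lib.MP_666dc0_nt.DS.Z2

/-!
# Levi descent without the semisimplicity of the Frobenius elements
-/

open NumberField IsDedekindDomain LaurentPolynomial
open scoped NumberField

namespace Pool.Agent.Lib.MP_666dc0_nt.DS

open Pool.Agent.Lib.MP_666dc0_nt.IG Pool.Agent.Lib.MP_666dc0_nt.LV

variable {F : Type} [Field F] [NumberField F]

/-- The representation `r` is unramified at `v` and `r(φ)` has the invariants of the point `g`. -/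
def Attached {O : Type} [CommRing O] [HopfAlgebra ℚ O]
    (A : HopfAction Gal(AlgebraicClosure F/F) O) {K : Type} [Field K] [Algebra ℚ K]
    (r : Gal(AlgebraicClosure F/F) →* A.LGroup K) (v : HeightOneSpectrum (𝓞 F))
    (φ : Gal(AlgebraicClosure F/F)) (g : Pts O K) : Prop :=
  (∀ P u, IsInertiaAt v P u → (r u).left = 1) ∧ ∀ f ∈ A.inv φ, (r φ).left.hom f = g.hom f

/-- **Levi descent without the semisimplicity of the Frobenius elements.** Let the `m v` be points of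
`M̂` over `ℚ̄_ℓ`. If for infinitely many integers `k` there is an admissible `r : Γ_F → ᴸG(ℚ̄_ℓ)`, unramified
outside `S` and `ℓ`, such that `r(φ_v)` has the invariants of `m_v μ(N(v)^k)` for all `v ∉ S`, `v ∤ ℓ`,
then there is an admissible `r' : Γ_F → ᴸM(ℚ̄_ℓ)`, unramified outside `S` and `ℓ`, such that `r'(φ_v)` has the
invariants of `m_v` for all `v ∉ S`, `v ∤ ℓ`. -/
theorem levi_descent {O O' : Type} [CommRing O] [HopfAlgebra ℚ O] [Algebra.FiniteType ℚ O]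
    [CommRing O'] [HopfAlgebra ℚ O'] (hO : LinearlyReductive O) (hO' : LinearlyReductive O')
    (A : HopfAction Gal(AlgebraicClosure F/F) O) (A' : HopfAction Gal(AlgebraicClosure F/F) O')
    (hA : IsOpen (A.act.ker : Set Gal(AlgebraicClosure F/F)))
    (π : O →ₐc[ℚ] O') (μ : O →ₐc[ℚ] ℚ[T;T⁻¹]) (hM : IsLevi A A' π μ)
    (S : Finset (HeightOneSpectrum (𝓞 F)))
    (hS : ∀ v, v ∉ S → ∀ P u, IsInertiaAt v P u → A.act u = 1)
    (φ : HeightOneSpectrum (𝓞 F) → Gal(AlgebraicClosure F/F))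
    (hφ : (∀ v, v ∉ S → ∃ P, IsOver v P ∧ IsFrob v P (φ v)) ∨
      ∀ v, v ∉ S → ∃ P, IsOver v P ∧ IsFrob v P (φ v)⁻¹)
    (ℓ : ℕ) [Fact ℓ.Prime] (m : HeightOneSpectrum (𝓞 F) → Pts O' (PadicAlgCl ℓ))
    (hk : {k : ℤ | ∃ r : Gal(AlgebraicClosure F/F) →* A.LGroup (PadicAlgCl ℓ),
      IsAdmissible A r ∧ ∀ v, v ∉ S → (ℓ : 𝓞 F) ∉ v.asIdeal →
        Attached A r v (φ v)
          (Pts.incl π (m v) * Pts.cochar μ (normUnit (PadicAlgCl ℓ) v ^ k))}.Infinite) :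
    ∃ r' : Gal(AlgebraicClosure F/F) →* A'.LGroup (PadicAlgCl ℓ),
      IsAdmissible A' r' ∧ ∀ v, v ∉ S → (ℓ : 𝓞 F) ∉ v.asIdeal → Attached A' r' v (φ v) (m v) := by
  classical
  have hft : Algebra.FiniteType ℚ O' := Algebra.FiniteType.of_surjective
    (π : O →ₐ[ℚ] O') hM.surj
  have hA' : IsOpen (A'.act.ker : Set Gal(AlgebraicClosure F/F)) := isOpen_ker' hM hA
  choose m' hm'1 hm'2 using fun v => exists_semisimple hO' A' (finite_range_act hA') (φ v) (m v)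
  obtain ⟨s, hs, hsφ, hsu⟩ := exists_cyclo S φ hφ ℓ
  set Z : Set ℤ := {k : ℤ | ∃ r : Gal(AlgebraicClosure F/F) →* A.LGroup (PadicAlgCl ℓ),
      IsAdmissible A r ∧ ∀ v, v ∉ S → (ℓ : 𝓞 F) ∉ v.asIdeal →
        Attached A r v (φ v)
          (Pts.incl π (m v) * Pts.cochar μ (normUnit (PadicAlgCl ℓ) v ^ k))} with hZ
  have hch : ∀ k : ℤ, ∃ r : Gal(AlgebraicClosure F/F) →* A.LGroup (PadicAlgCl ℓ), k ∈ Z →
      (IsAdmissible A r ∧ ∀ v, v ∉ S → (ℓ : 𝓞 F) ∉ v.asIdeal → Attached A r v (φ v)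
        (Pts.incl π (m v) * Pts.cochar μ (normUnit (PadicAlgCl ℓ) v ^ k))) := by
    intro k
    by_cases hk : k ∈ Z
    · obtain ⟨r, hr⟩ := hk
      exact ⟨r, fun _ => hr⟩
    · exact ⟨SemidirectProduct.inr, fun h => absurd h hk⟩
  choose r hr using hch
  let ι : Type := {v : HeightOneSpectrum (𝓞 F) // v ∉ S ∧ (ℓ : 𝓞 F) ∉ v.asIdeal}
  obtain ⟨r', h1, h2, h3, h4⟩ := levi_abs (A := A) (A' := A') hO hO' hA hM s hs
    (fun i : ι => φ i.1) (by
      refine (dense_frob (frob_or hφ) ℓ (Fact.out : ℓ.Prime).pos).mono ?_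
      rintro w ⟨v, hv, hv', δ, k, rfl⟩
      exact ⟨⟨v, hv, hv'⟩, δ, k, rfl⟩)
    (fun i => by
      rw [hsφ i.1 i.2.1 i.2.2]
      exact normUnit_injective (PadicAlgCl ℓ) i.1)
    (fun i => m' i.1) (fun i => hm'1 i.1) Z hk r (fun k hk => (hr k hk).1.proj)
    (fun k hk => (hr k hk).1.cont)
    (fun i k hk f hf => by
      rw [hsφ i.1 i.2.1 i.2.2, ((hr k hk).2 i.1 i.2.1 i.2.2).2 f hf]
      exact (twist_congr hM (φ i.1) _ (hm'2 i.1) f hf).symm)
  refine ⟨r', ⟨h1, h2⟩, fun v hv hvℓ => ⟨fun P u hu => ?_, fun f hf => ?_⟩⟩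
  · exact h3 u (hS v hv P u hu) (hsu v hvℓ P u hu)
      fun k hk => ((hr k hk).2 v hv hvℓ).1 P u hu
  · rw [h4 ⟨v, hv, hvℓ⟩ f hf]
    exact hm'2 v f hf

end Pool.Agent.Lib.MP_666dc0_nt.DS
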