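import Pool.Agent.Lib.MP_666dc0_nt.LV.Z5

/-!
# Traces on the weight spaces of the cocharacter
-/

open Polynomial LaurentPolynomial

namespace Pool.Agent.Lib.MP_666dc0_nt.DS

open Pool.Agent.Lib.MP_666dc0_nt.IG Pool.Agent.Lib.MP_666dc0_nt.LV

variable {O O' : Type} [CommRing O] [HopfAlgebra ℚ O] [CommRing O'] [HopfAlgebra ℚ O'] {Γ : Type}
  [Group Γ] {A : HopfAction Γ O} {A' : HopfAction Γ O'} {π : O →ₐc[ℚ] O'}
  {μ : O →ₐc[ℚ] ℚ[T;T⁻¹]} {n : ℕ}

/-- The trace of an element of `ᴸM` on a weight space of `μ` depends only on its invariants. -/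
theorem trace_pj_eq (hM : IsLevi A A' π μ) {ρ : MatRep A n} {J : Finset ℤ}
    {p : ℤ → Matrix (Fin n) (Fin n) ℚ} (hW : Wts μ ρ J p) {ρ' : MatRep A' n}
    (ha : ∀ i j, ρ'.a i j = π (ρ.a i j)) (hP : ∀ γ, ρ'.P γ = ρ.P γ) {R : Type} [CommRing R]
    [Algebra ℚ R] {l : ℤ} (hl : l ∈ J) {x y : A'.LGroup R} (h : A'.Eqv x y) :
    (pj R p l * ρ'.ev R x).trace = (pj R p l * ρ'.ev R y).trace := by
  obtain ⟨F, hF⟩ : ∃ F : Γ → O', ∀ γ, F γ = (pj O' p l * (ρ'.a * ρ'.pm O' γ)).trace :=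
    ⟨_, fun _ => rfl⟩
  have hval : ∀ (S : Type) [CommRing S] [Algebra ℚ S] (z : A'.LGroup S),
      z.left.hom (F z.right) = (pj S p l * ρ'.ev S z).trace := by
    intro S _ _ z
    rw [hF, MatRep.ev_apply]
    have h1 : pj S p l * (ρ'.gm z.left * ρ'.pm S z.right) =
        (pj O' p l * (ρ'.a * ρ'.pm O' z.right)).map z.left.hom := by
      rw [Matrix.map_mul, Matrix.map_mul, MatRep.pm_map]
      congr 1
      exact (pj_map p (z.left.hom : O' →+* S) l).symm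
    rw [h1]
    exact AddMonoidHom.map_trace (z.left.hom : O' →+* S).toAddMonoidHom _
  have hmem : ∀ γ, F γ ∈ A'.inv γ := by
    intro γ S _ _ x g
    have h1 := hval S (⟨x * g * (A'.onPts S γ x)⁻¹, γ⟩ : A'.LGroup S)
    have h2 := hval S (⟨g, γ⟩ : A'.LGroup S)
    change (x * g * (A'.onPts S γ x)⁻¹).hom (F γ) = _ at h1
    change g.hom (F γ) = _ at h2
    rw [h1, h2]
    have h3 : (⟨x * g * (A'.onPts S γ x)⁻¹, γ⟩ : A'.LGroup S) =
        SemidirectProduct.inl x * ⟨g, γ⟩ * (SemidirectProduct.inl x)⁻¹ := by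
      ext1
      · rw [A'.conj_inl_left]
      · simp
    have h4 : pj S p l * ρ'.ev S (SemidirectProduct.inl x) =
        ρ'.ev S (SemidirectProduct.inl x) * pj S p l := by
      rw [ev_restrict ha hP]
      exact ev_incl_comm hM hW _ _ hl
    rw [h3, map_mul, map_mul, ← mul_assoc, ← mul_assoc, h4, mul_assoc (ρ'.ev S _),
      Matrix.trace_mul_cycle, ← map_mul, inv_mul_cancel, map_one, one_mul]
  rw [← hval R x, ← hval R y, ← h.1]
  exact h.2 _ (hmem _)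

end Pool.Agent.Lib.MP_666dc0_nt.DS
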