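import Pool.Agent.Lib.MP_666dc0_nt.DS.A4
import Pool.Agent.Lib.MP_666dc0_nt.DS.G1
import Pool.Agent.Lib.MP_666dc0_nt.DS.H2
import Pool.Agent.Lib.MP_666dc0_nt.DS.J3
import Pool.Agent.Lib.MP_666dc0_nt.DS.J5
import Pool.Agent.Lib.MP_666dc0_nt.DS.T1
import Pool.Agent.Lib.MP_666dc0_nt.DS.U1

/-!
# Levi descent for a compact group, without the semisimplicity of the Frobenius elements
-/

open Polynomial LaurentPolynomial

namespace Pool.Agent.Lib.MP_666dc0_nt.DS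

open Pool.Agent.Lib.MP_666dc0_nt.IG Pool.Agent.Lib.MP_666dc0_nt.LV

variable {O O' : Type} [CommRing O] [HopfAlgebra ℚ O] [CommRing O'] [HopfAlgebra ℚ O'] {Γ : Type}
  [Group Γ] {A : HopfAction Γ O} {A' : HopfAction Γ O'} {π : O →ₐc[ℚ] O'}
  {μ : O →ₐc[ℚ] ℚ[T;T⁻¹]} {n : ℕ}

private theorem Z2_aeval_conj {R : Type} [CommRing R] {N : ℕ} (B B' M : Matrix (Fin N) (Fin N) R)
    (h1 : B * B' = 1) (h2 : B' * B = 1) (q : Polynomial R) :
    aeval (B' * M * B) q = B' * aeval M q * B := by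
  induction q using Polynomial.induction_on' with
  | add p q hp hq => rw [map_add, map_add, hp, hq, mul_add, add_mul]
  | monomial k a =>
    have h3 : (B' * M * B) ^ k = B' * M ^ k * B := by
      induction k with
      | zero => rw [pow_zero, pow_zero, mul_one, h2]
      | succ k ih =>
        rw [pow_succ, ih, pow_succ]
        calc B' * M ^ k * B * (B' * M * B) = B' * M ^ k * (B * B') * M * B := by
              simp only [mul_assoc]
          _ = B' * (M ^ k * M) * B := by rw [h1, mul_one]; simp only [mul_assoc]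
    rw [aeval_monomial, aeval_monomial, h3, Algebra.algebraMap_eq_smul_one, smul_one_mul,
      smul_one_mul, mul_smul_comm, smul_mul_assoc]

private theorem Z2_nil_conj {R : Type} [CommRing R] {N : ℕ} (B B' M : Matrix (Fin N) (Fin N) R)
    (h1 : B * B' = 1) (h : IsNilpotent M) : IsNilpotent (B' * M * B) := by
  obtain ⟨k, hk⟩ := h
  refine ⟨k + 1, ?_⟩
  have h3 : ∀ k : ℕ, (B' * M * B) ^ (k + 1) = B' * M ^ (k + 1) * B := by
    intro k
    induction k with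
    | zero => rw [zero_add, pow_one, pow_one]
    | succ k ih =>
      rw [pow_succ, ih, pow_succ M (k + 1)]
      calc B' * M ^ (k + 1) * B * (B' * M * B) = B' * M ^ (k + 1) * (B * B') * M * B := by
            simp only [mul_assoc]
        _ = B' * (M ^ (k + 1) * M) * B := by rw [h1, mul_one]; simp only [mul_assoc]
  rw [h3, pow_succ, hk, zero_mul, mul_zero, zero_mul]

/-- Levi descent for a compact group `Γ`. -/
theorem levi_abs [Algebra.FiniteType ℚ O] [TopologicalSpace Γ] [IsTopologicalGroup Γ]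
    [CompactSpace Γ] (hO : LinearlyReductive O) (hO' : LinearlyReductive O')
    (hA : IsOpen (A.act.ker : Set Γ)) (hM : IsLevi A A' π μ) {K : Type} [Field K] [IsAlgClosed K]
    [CharZero K] [Algebra ℚ K] [TopologicalSpace K] [IsTopologicalDivisionRing K] [T2Space K]
    (s : Γ →* Kˣ) (hs : Continuous fun γ => (s γ : K)) {ι : Type} (φ : ι → Γ)
    (hΦ : Dense {w : Γ | ∃ (i : ι) (δ : Γ) (a : ℕ), w = δ * φ i ^ a * δ⁻¹})
    (hinf : ∀ i, Function.Injective fun k : ℤ => ((s (φ i) ^ k : Kˣ) : K)) (m : ι → Pts O' K)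
    (hm : ∀ i, A'.IsSemisimpleElt (⟨m i, φ i⟩ : A'.LGroup K)) (Z : Set ℤ)
    (hZ : Z.Infinite) (r : ℤ → Γ →* A.LGroup K) (hr : ∀ k ∈ Z, ∀ γ, (r k γ).right = γ)
    (hc : ∀ k ∈ Z, ∀ f : O, Continuous fun γ => (r k γ).left.hom f)
    (hv : ∀ i, ∀ k ∈ Z, ∀ f ∈ A.inv (φ i),
      (r k (φ i)).left.hom f = (Pts.incl π (m i) * Pts.cochar μ (s (φ i) ^ k)).hom f) :
    ∃ r' : Γ →* A'.LGroup K, (∀ γ, (r' γ).right = γ) ∧
      (∀ f, Continuous fun γ => (r' γ).left.hom f) ∧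
      (∀ u, A.act u = 1 → s u = 1 → (∀ k ∈ Z, (r k u).left = 1) → (r' u).left = 1) ∧
      ∀ i, ∀ f ∈ A'.inv (φ i), (r' (φ i)).left.hom f = (m i).hom f := by
  classical
  obtain ⟨n, ρ, hρ⟩ := exists_faithful hA
  obtain ⟨G, hG⟩ := exists_redG ρ hO hρ
  obtain ⟨TD⟩ := exists_tensorData G
  have hfin := finite_range_act hA
  obtain ⟨J, p, hW⟩ := exists_wts (A := A) hM.fixed ρ
  obtain ⟨ρ', hρ'a, hρ'P⟩ := exists_restrict hM ρ
  have hρ' : Faithful ρ' := faithful_restrict hM hρ hρ'a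
  have hA' : IsOpen (A'.act.ker : Set Γ) := isOpen_ker' hM hA
  -- a place
  obtain ⟨w₀, i₀, -⟩ := hΦ.nonempty
  set σ₀ : Γ := φ i₀ with hσ₀def
  -- the family as a function on `Γ`
  let mσ : Γ → Pts O' K := fun σ => if h : ∃ i, φ i = σ then m h.choose else 1
  have hmσ : ∀ σ ∈ Set.range φ, ∀ k ∈ Z, ∀ f ∈ A.inv σ,
      (r k σ).left.hom f = (Pts.incl π (mσ σ) * Pts.cochar μ (s σ ^ k)).hom f := by
    intro σ hσ k hk f hf
    have h1 : ∃ i, φ i = σ := hσ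
    have h2 : mσ σ = m h1.choose := dif_pos h1
    have h3 := hv h1.choose k hk
    rw [h1.choose_spec] at h3
    rw [h2]
    exact h3 f hf
  -- the exponents
  obtain ⟨t, htZ, htc⟩ := hZ.exists_subset_card_eq J.card
  let kv : Fin J.card → ℤ := fun a => t.orderEmbOfFin htc a
  have hkv : ∀ b, kv b ∈ Z := fun b => htZ (Finset.orderEmbOfFin_mem t htc b)
  have hkvm : StrictMono kv := fun _ _ h => (t.orderEmbOfFin htc).strictMono h
  -- the functions `D`, `E`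
  let D : Γ → K := fun w => (LD.vdm (jv J) kv (s w : K)).det
  let E : ℤ → Γ → K := fun l w => etaJ J kv (s w : K) (fun b => (ρ.ev K (r (kv b) w)).trace) l
  have hDE : ∀ w, ∀ k ∈ Z, D w * (ρ.ev K (r k w)).trace = ∑ l ∈ J, E l w * (s w : K) ^ (l * k) :=
    fun w k hk => identityI hA hM hW r hr hc s hs (Set.range φ) mσ hmσ (by
      refine hΦ.mono ?_
      rintro w ⟨i, δ, a, rfl⟩
      exact ⟨φ i, ⟨i, rfl⟩, δ, a, rfl⟩) kv hkv k hk w
  have hsz : ∀ z : ℤ, Continuous fun γ => (s γ : K) ^ z := fun z => by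
    have h1 : (fun γ => (s γ : K) ^ z) = (fun γ => (s γ : K)) ∘ fun γ => γ ^ z := by
      funext γ
      rw [Function.comp_apply, map_zpow, Units.val_zpow_eq_zpow_val]
    rw [h1]
    exact hs.comp (continuous_zpow z)
  have hDc : Continuous D := continuous_det J kv (fun γ => (s γ : K)) hsz
  have hEc : ∀ l, Continuous (E l) := fun l =>
    continuous_etaJ J kv (fun γ => (s γ : K)) hsz (fun b γ => (ρ.ev K (r (kv b) γ)).trace)
      (fun b => continuous_trace_ev hA ρ (r (kv b)) (hr _ (hkv b)) (hc _ (hkv b))) l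
  have hD0 : ∀ γ, {a : ℕ | D (σ₀ ^ a * γ) = 0}.Finite := fun γ => by
    have h1 := LD.finite_det_eq_zero (jv_strictMono J) hkvm (s σ₀ : K) (s γ : K) (s σ₀).ne_zero
      (s γ).ne_zero (fun a ha h => by
        have h2 := @hinf i₀ (a : ℤ) 0 (by
          change ((s σ₀ ^ (a : ℤ) : Kˣ) : K) = ((s σ₀ ^ (0 : ℤ) : Kˣ) : K)
          rw [zpow_natCast, Units.val_pow_eq_pow_val, h, zpow_zero, Units.val_one])
        omega)
    refine h1.subset fun a ha => ?_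
    change (LD.vdm (jv J) kv (s σ₀ ^ a * s γ : K)).det = 0
    have h3 : (LD.vdm (jv J) kv (s (σ₀ ^ a * γ) : K)).det = 0 := ha
    rwa [map_mul, map_pow, Units.val_mul, Units.val_pow_eq_pow_val] at h3
  have hmDG : ∀ i, DG (ρ.ev K (⟨Pts.incl π (m i), φ i⟩ : A.LGroup K)) := fun i => by
    have h1 := DG_ev ρ' (exists_pow_act (finite_range_act hA') _) (hm i)
    rw [ev_restrict hρ'a hρ'P] at h1
    exact h1
  obtain ⟨K1, Ω, _, _, _, _, _, _, _, V, r₁, c, hmin₁, htr, hid, hval⟩ :=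
    exists_ultra_point ρ J s φ hinf m Z hZ r hr hv
  -- the semisimple part of `r₁ σ₀`, conjugate to the standard form
  obtain ⟨y₁, hy₁σ, hy₁⟩ := exists_jordan hfin (r₁ σ₀)
  have hy₁v : ∀ f ∈ A.inv (r₁ σ₀).right, (r₁ σ₀).left.hom f = y₁.left.hom f :=
    jordan_inv hO hfin hy₁σ fun n ρ => (hy₁ n ρ).2
  rw [hmin₁.val.proj σ₀] at hy₁σ hy₁v
  obtain ⟨g, hg⟩ := exists_conj_of_DG hO hρ y₁
    (⟨Pts.incl π (Pts.map (algebraMap K Ω).toRatAlgHom (m i₀)) * Pts.cochar μ (c σ₀), σ₀⟩ :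
      A.LGroup Ω) hy₁σ (by
        rw [hy₁σ]
        intro f hf
        rw [← hy₁v f hf]
        exact hval r₁ hmin₁.val i₀ f hf) (hy₁ n ρ).1 (by
        rw [ev_eq_dg hM hW (m i₀) (c σ₀) _ rfl]
        refine DG_twist (hmDG i₀) (hW.proj Ω) ?_ (htr i₀)
        intro l hl
        have h1 := congrArg (fun M : Matrix (Fin n) (Fin n) K => M.map (algebraMap K Ω))
          (ev_incl_comm hM hW (m i₀) σ₀ hl)
        rw [Matrix.map_mul, Matrix.map_mul, pj_map] at h1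
        exact h1)
  obtain ⟨r₂, hmin, hr₂⟩ := exists_conj_min ρ hmin₁ g
  obtain ⟨y, hydef⟩ : ∃ y : A.LGroup Ω, y =
      ⟨Pts.incl π (Pts.map (algebraMap K Ω).toRatAlgHom (m i₀)) * Pts.cochar μ (c σ₀), σ₀⟩ :=
    ⟨_, rfl⟩
  rw [← hydef] at hg
  have hyσ : y.right = σ₀ := by rw [hydef]
  have hyl : y.left = Pts.incl π (Pts.map (algebraMap K Ω).toRatAlgHom (m i₀)) *
      Pts.cochar μ (c σ₀) := by rw [hydef]
  obtain ⟨B, hB⟩ : ∃ B, B = ρ.ev Ω (SemidirectProduct.inl g) := ⟨_, rfl⟩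
  obtain ⟨B', hB'⟩ : ∃ B', B' = ρ.ev Ω (SemidirectProduct.inl g)⁻¹ := ⟨_, rfl⟩
  have hBB' : B * B' = 1 := by rw [hB, hB', ← map_mul, mul_inv_cancel, map_one]
  have hB'B : B' * B = 1 := by rw [hB, hB', ← map_mul, inv_mul_cancel, map_one]
  have hevy : ρ.ev Ω y = B * ρ.ev Ω y₁ * B' := by
    rw [← hg, map_mul, map_mul, hB, hB']
  have hevr : ρ.ev Ω (r₂ σ₀) = B * ρ.ev Ω (r₁ σ₀) * B' := by
    rw [hr₂, map_mul, map_mul, hB, hB']
  have hyQ : ∃ Q : Polynomial Ω, ρ.ev Ω y = aeval (ρ.ev Ω (r₂ σ₀)) Q := by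
    obtain ⟨Q, hQ⟩ := (hy₁ n ρ).2.1
    refine ⟨Q, ?_⟩
    rw [hevy, hevr, hQ, Z2_aeval_conj B' B _ hB'B hBB']
  have hynil : IsNilpotent (ρ.ev Ω (r₂ σ₀) - ρ.ev Ω y) := by
    rw [hevy, hevr, ← sub_mul, ← mul_sub]
    exact Z2_nil_conj B' B _ hB'B (hy₁ n ρ).2.2
  have hidw : ∀ w, algebraMap K Ω (D w) * (ρ.ev Ω (r₂ w)).trace =
      ∑ l ∈ J, (c w : Ω) ^ l * algebraMap K Ω (E l w) := fun w =>
    hid r₂ hmin.val w (D w) (fun l => E l w) (hDE w)
  have hDch : ∀ γ δ, (fun x : ℕ × ℕ => algebraMap K Ω (D (wn σ₀ γ δ x))) ∈ CE2 K Ω :=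
    fun γ δ => det_wn_mem J kv s σ₀ γ δ
  have hEch : ∀ l, ∀ γ δ, (fun x : ℕ × ℕ => algebraMap K Ω (E l (wn σ₀ γ δ x))) ∈ CE2 K Ω :=
    fun l γ δ => eta_wn_mem J kv s (fun b => (ρ.ev K).comp (r (kv b))) σ₀ γ δ l
  have hcomm := heart_comm hM hG hρ TD hW hmin σ₀ (m i₀) c (htr i₀) y hyσ hyl (hmDG i₀) hyQ hynil
    D E hidw hD0 hDch hEch
  obtain ⟨r', hr', hrr'⟩ := exists_levi_hom hM hρ hW r₂ hmin.val.proj hcomm c
  obtain ⟨Y, P, hP0, hev, hYe, hPY, -⟩ := heart_prep_ev hM hW (m i₀) (c σ₀) (htr i₀) (r₂ σ₀) y hyl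
    (by rw [hyσ]; exact hmDG i₀) hyQ hynil
  have htrace := heart_trace hM hW hmin.val.proj σ₀ c (htr i₀) Y P hP0 hev hYe hPY D E
    hidw hDch hEch r' hrr'
  have hθ : ∀ l : ℤ, ∃ θ : Γ → K, l ∈ J → (Continuous θ ∧ (∀ γ, algebraMap K Ω (θ γ) =
      (pj Ω p l * ρ.ev Ω (⟨Pts.incl π (r' γ).left, γ⟩ : A.LGroup Ω)).trace) ∧
      ∀ u, (∀ w, D (w * u) = D w ∧ E l (w * u) = E l w) → ∀ γ, θ (γ * u) = θ γ) := by
    intro l
    by_cases hl : l ∈ J
    · obtain ⟨θ, hθ⟩ := exists_theta σ₀ Y P hP0 hPY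
        (fun γ => pj Ω p l * ρ.ev Ω (⟨Pts.incl π (r' γ).left, γ⟩ : A.LGroup Ω)) D (E l) hDc (hEc l)
        hD0 (fun γ a => htrace γ a hl)
      exact ⟨θ, fun _ => hθ⟩
    · exact ⟨fun _ => 0, fun h => absurd h hl⟩
  choose θ hθ using hθ
  let Θ : Γ → K := fun γ => ∑ l ∈ J, θ l γ
  have hΘc : Continuous Θ := continuous_finsetSum _ fun l hl => (hθ l hl).1
  have hsum : ∑ l ∈ J, pj Ω p l = 1 := (hW.proj Ω).sum_eq
  have hev' : ∀ γ, ρ'.ev Ω (r' γ) = ρ.ev Ω (⟨Pts.incl π (r' γ).left, γ⟩ : A.LGroup Ω) := fun γ => by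
    rw [ev_restrict hρ'a hρ'P, hr' γ]
  have hΘ : ∀ γ, algebraMap K Ω (Θ γ) = (ρ'.ev Ω (r' γ)).trace := fun γ => by
    change algebraMap K Ω (∑ l ∈ J, θ l γ) = _
    rw [map_sum, hev', Finset.sum_congr rfl fun l hl => (hθ l hl).2.1 γ, ← Matrix.trace_sum,
      ← Finset.sum_mul, hsum, one_mul]
  obtain ⟨rK, hrK, hrKc, hrKv, hrKu, -⟩ := descend_trace ρ' hA' hO' hρ' r' hr' Θ hΘc hΘ
  refine ⟨rK, hrK, hrKc, ?_, ?_⟩
  · intro u hu hsu hru
    have hu' : A'.act u = 1 := by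
      ext f
      obtain ⟨f, rfl⟩ := hM.surj f
      rw [← hM.act, hu]
      rfl
    have key : ∀ u : Γ, A.act u = 1 → s u = 1 → (∀ k ∈ Z, (r k u).left = 1) →
        ∀ γ, Θ (γ * u) = Θ γ := by
      intro u hu hsu hru γ
      refine Finset.sum_congr rfl fun l hl => (hθ l hl).2.2 u (fun w => ?_) γ
      have h1 : s (w * u) = s w := by rw [map_mul, hsu, mul_one]
      have h2 : ∀ b, (ρ.ev K (r (kv b) (w * u))).trace = (ρ.ev K (r (kv b) w)).trace := by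
        intro b
        rw [map_mul, map_mul, ρ.ev_eq_one (hru _ (hkv b)) (by rw [hr _ (hkv b)]; exact hu), mul_one]
      constructor
      · change (LD.vdm (jv J) kv (s (w * u) : K)).det = _
        rw [h1]
      · change etaJ J kv (s (w * u) : K) (fun b => (ρ.ev K (r (kv b) (w * u))).trace) l = _
        simp only [h1, h2]
        rfl
    refine hrKu u hu' (key u hu hsu hru) (key u⁻¹ ?_ ?_ ?_)
    · rw [map_inv, hu, inv_one]
    · rw [map_inv, hsu, inv_one]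
    · intro k hk
      rw [map_inv, SemidirectProduct.inv_left, hru k hk, inv_one, map_one]
  · intro i
    set σ : Γ := φ i with hσdef
    have hfin' : (Set.range A'.act).Finite := finite_range_act hA'
    have hft : Algebra.FiniteType ℚ O' := Algebra.FiniteType.of_surjective
      (π : O →ₐ[ℚ] O') hM.surj
    have hch : CharZero Ω := algebraRat.charZero Ω
    obtain ⟨n', hn', hn'v⟩ := exists_semisimple hO' A' hfin' σ (r' σ).left
    have hv2 : ∀ f ∈ A.inv σ, (Pts.incl π n' * Pts.cochar μ (c σ)).hom f =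
        (Pts.incl π (Pts.map (algebraMap K Ω).toRatAlgHom (m i)) * Pts.cochar μ (c σ)).hom f := by
      intro f hf
      rw [twist_congr hM σ (c σ) hn'v f hf, ← hrr']
      exact hval r₂ hmin.val i f hf
    have hE : A'.Eqv (⟨n', σ⟩ : A'.LGroup Ω) (r' σ) := ⟨(hr' σ).symm, fun f hf => hn'v f hf⟩
    obtain ⟨h', hh'⟩ := match_levi hO hM hρ hW σ n' (m i) (c σ) (htr i) hv2
      (DG_ev ρ (exists_pow_act hfin _)
        (isSemisimpleElt_incl_cochar hM hfin (⟨n', σ⟩ : A'.LGroup Ω) hn' (c σ))) (hmDG i) (by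
        intro l hl b _
        refine ⟨θ l (σ ^ b), ?_⟩
        have h1 := trace_pj_eq hM hW hρ'a hρ'P hl (hE.pow b)
        rw [map_pow, ← map_pow r', hev'] at h1
        rw [(hθ l hl).2.1, ← h1, ev_restrict hρ'a hρ'P])
    intro f hf
    apply (algebraMap K Ω).injective
    rw [hrKv σ f hf]
    have h1 := A'.mem_inv.1 hf Ω h' n'
    rw [hh', hn'v f hf] at h1
    exact h1.symm

end Pool.Agent.Lib.MP_666dc0_nt.DS
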